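import Pool.Agent.NH88.FA.Stm2

set_option autoImplicit false
set_option linter.unusedSectionVars false

/-!
FA-CMU and FA-CLE (helper79): components of a family of matrices of natural numbers.
-/

namespace Pool.Agent.NH88.FA

namespace CMU

variable {E α : Type} [Fintype E] [DecidableEq E] {φ : List α → Matrix E E ℕ}

theorem mul_le (h : ∀ x y, φ (x ++ y) = φ x * φ y) (x y : List α) (i k j : E) :
    φ x i k * φ y k j ≤ φ (x ++ y) i j := by
  rw [h, Matrix.mul_apply]
  exact Finset.single_le_sum (f := fun k => φ x i k * φ y k j) (fun _ _ => Nat.zero_le _)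
    (Finset.mem_univ k)

theorem trans (h : ∀ x y, φ (x ++ y) = φ x * φ y) {i k j : E} (h1 : Rch φ i k)
    (h2 : Rch φ k j) : Rch φ i j := by
  obtain ⟨x, hx⟩ := h1
  obtain ⟨y, hy⟩ := h2
  refine ⟨x ++ y, ?_⟩
  have h3 := mul_le h x y i k j
  have h4 : 0 < φ x i k * φ y k j := Nat.mul_pos (Nat.pos_of_ne_zero hx) (Nat.pos_of_ne_zero hy)
  omega

end CMU

open CMU

theorem t_CMU : S_CMU := by
  classical
  intro E α _ _ φ h _ e x y
  ext i j
  rw [Matrix.mul_apply]
  by_cases hi : SameC φ e i
  · by_cases hj : SameC φ e j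
    · have e1 : phC φ e (x ++ y) i j = φ (x ++ y) i j := by
        unfold phC
        rw [Matrix.of_apply, if_pos ⟨hi, hj⟩]
      rw [e1, h, Matrix.mul_apply]
      refine Finset.sum_congr rfl fun k _ => ?_
      by_cases hk : SameC φ e k
      · unfold phC
        rw [Matrix.of_apply, Matrix.of_apply, if_pos ⟨hi, hk⟩, if_pos ⟨hk, hj⟩]
      · have e2 : phC φ e x i k = 0 := by
          unfold phC
          rw [Matrix.of_apply, if_neg (fun h1 => hk h1.2)]
        rw [e2, zero_mul]
        by_contra hne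
        have h1 : φ x i k ≠ 0 := left_ne_zero_of_mul hne
        have h2 : φ y k j ≠ 0 := right_ne_zero_of_mul hne
        exact hk ⟨trans h hi.1 ⟨x, h1⟩, trans h ⟨y, h2⟩ hj.2⟩
    · have e1 : phC φ e (x ++ y) i j = 0 := by
        unfold phC
        rw [Matrix.of_apply, if_neg (fun h1 => hj h1.2)]
      rw [e1]
      symm
      refine Finset.sum_eq_zero fun k _ => ?_
      have e2 : phC φ e y k j = 0 := by
        unfold phC
        rw [Matrix.of_apply, if_neg (fun h1 => hj h1.2)]
      rw [e2, mul_zero]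
  · have e1 : phC φ e (x ++ y) i j = 0 := by
      unfold phC
      rw [Matrix.of_apply, if_neg (fun h1 => hi h1.1)]
    rw [e1]
    symm
    refine Finset.sum_eq_zero fun k _ => ?_
    have e2 : phC φ e x i k = 0 := by
      unfold phC
      rw [Matrix.of_apply, if_neg (fun h1 => hi h1.1)]
    rw [e2, zero_mul]

theorem t_CLE : S_CLE := by
  classical
  intro E α _ _ φ h _ hd e x i j
  unfold phC
  rw [Matrix.of_apply]
  split_ifs with h1
  · obtain ⟨y, hy⟩ := trans h h1.2.2 h1.1.1
    have h2 := (mul_le h x y i j i).trans (hd _ _)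
    have h3 : φ x i j ≤ φ x i j * φ y j i := Nat.le_mul_of_pos_right _ (Nat.pos_of_ne_zero hy)
    omega
  · exact Nat.zero_le _

end Pool.Agent.NH88.FA
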