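import Mathlib
import Pool.Agent.R620.KV.Trips

set_option autoImplicit false

/-!
1-limited automata: computations through given pairs (table, state) at given boundaries.
-/

namespace Pool.Agent.NH88.FA

open Relation Pool.Agent.H630R2.LA Pool.Agent.R620.KV

section at_

variable {A : Type} {strict : Prop} {M : LimAut A}

/-- In the configuration `c` on the input `w` the cell `m + 1` is reached for the first time, and `y`
is the pair of the table of the cells `0, ..., m` and the state. -/
def At (strict : Prop) (M : LimAut A) (w : List A) (m : ℕ) (y : Set (M.Q × M.Q) × M.Q)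
    (c : Cfg M) : Prop :=
  c.state = y.2 ∧ c.pos = m + 1 ∧ (∀ i, 1 ≤ i → (i ∈ c.seen ↔ i ≤ m)) ∧
    (∀ i, m < i → c.tape i = initTape M w i) ∧ c.tape 0 = .lm ∧ Tab strict M c.tape m = y.1

theorem at_init (w : List A) : At strict M w 0 (x0 strict M) (init M w) := by
  refine ⟨rfl, rfl, ?_, fun _ _ => rfl, rfl, ?_⟩
  · intro i hi
    simp [init]; omega
  · rw [Tab_zero]; rfl

theorem at_succ {w : List A} {m : ℕ} (hm : m ≤ w.length) {x y : Set (M.Q × M.Q) × M.Q} {c : Cfg M}
    (h : At strict M w m y c) (hs : nstep strict M (initTape M w (m + 1)) y x) :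
    ∃ c', At strict M w (m + 1) x c' ∧ ReflTransGen (Step strict w.length) c c' := by
  obtain ⟨hst, hpos, hS, hτ, h0, hT⟩ := h
  obtain ⟨cs, cp, τ, S⟩ := c
  dsimp only at hst hpos hS hτ h0 hT
  subst hst hpos
  obtain ⟨q, b, d, hδ, hR, hr, hl⟩ := hs
  set τ' : ℕ → Sym M.W := Function.update τ (m + 1) ((τ (m + 1)).rewrite b) with hτ'
  have hagree : ∀ i, i ≤ m → τ' i = τ i := by
    intro i hi
    rw [hτ', Function.update_of_ne]
    omega
  have hnew : τ' (m + 1) = (initTape M w (m + 1)).rewrite b := by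
    rw [hτ', Function.update_self, hτ _ (by omega)]
  have htab : Tab strict M τ' (m + 1) = x.1 := by
    rw [Tab_succ, hnew, Tab.congr hagree, hT, hR]
  have hnot : m + 1 ∉ S := by
    intro h
    have := (hS (m + 1) (by omega)).1 h
    omega
  have hS1 : ∀ i, 1 ≤ i → (i ∈ insert (m + 1) S ↔ i ≤ m + 1) := by
    intro i hi
    rw [Set.mem_insert_iff, hS i hi]
    omega
  have h0' : τ' 0 = .lm := by rw [hagree 0 (by omega)]; exact h0
  have hδ' : (q, b, d) ∈ M.δ y.2 (τ (m + 1)) := by rw [hτ _ (by omega)]; exact hδ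
  have hm1 : m + 1 ≤ w.length + 1 := by omega
  cases d
  · obtain ⟨s, hs1, hs2⟩ := hl rfl
    have hstep : Step strict w.length (⟨y.2, m + 1, τ, S⟩ : Cfg M)
        ⟨q, m, τ', insert (m + 1) S⟩ :=
      ⟨hm1, q, b, false, hδ', fun _ h => absurd h hnot, rfl, fun h => absurd h hnot,
        fun _ => rfl, rfl, by simp, by simp⟩
    have hpath : ReflTransGen (Fr strict M τ' (m + 1)) (q, m) (x.2, m + 2) := by
      have h1 : ReflTransGen (Fr strict M τ m) (q, m) (s, m + 1) := by
        have := hs1
        rw [← hT] at this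
        exact this
      have h2 : ReflTransGen (Fr strict M τ' (m + 1)) (q, m) (s, m + 1) :=
        FrS.mono (Nat.le_succ m) (FrS.congr (fun i hi => (hagree i hi).symm) h1)
      refine h2.trans ?_
      have := hs2
      rw [← htab] at this
      exact this
    obtain ⟨S', hS', hlift⟩ := lift hm1 h0' hpath _ hS1
    refine ⟨⟨x.2, m + 2, τ', S'⟩, ⟨rfl, rfl, hS', ?_, h0', htab⟩, ?_⟩
    · intro i hi
      show τ' i = _
      rw [hτ', Function.update_of_ne (by omega)]
      exact hτ i (by omega)
    · exact ReflTransGen.head hstep hlift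
  · have hq := hr rfl
    have hstep : Step strict w.length (⟨y.2, m + 1, τ, S⟩ : Cfg M)
        ⟨q, m + 2, τ', insert (m + 1) S⟩ :=
      ⟨hm1, q, b, true, hδ', fun _ h => absurd h hnot, rfl, fun h => absurd h hnot,
        fun _ => rfl, rfl, by simp, by simp⟩
    refine ⟨⟨q, m + 2, τ', insert (m + 1) S⟩, ⟨hq.symm, rfl, hS1, ?_, h0', htab⟩, ?_⟩
    · intro i hi
      show τ' i = _
      rw [hτ', Function.update_of_ne (by omega)]
      exact hτ i (by omega)
    · exact ReflTransGen.single hstep

theorem at_runs (v : List A) : ∀ (u t w : List A), w = u ++ v ++ t → ∀ (x y : Set (M.Q × M.Q) × M.Q)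
    (c : Cfg M), At strict M w u.length y c → runs strict M v y x →
    ∃ c', At strict M w (u.length + v.length) x c' ∧ ReflTransGen (Step strict w.length) c c' := by
  induction v with
  | nil =>
    intro u t w hw x y c h hr
    have : y = x := hr
    subst this
    exact ⟨c, h, ReflTransGen.refl⟩
  | cons a v ih =>
    intro u t w hw x y c h hr
    obtain ⟨z, h1, h2⟩ := hr
    have hlen : u.length < w.length := by
      rw [hw]
      simp only [List.length_append, List.length_cons]
      omega
    have hcell : initTape M w (u.length + 1) = .sym (M.inp a) := by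
      have h3 : w[u.length]? = some a := by
        rw [hw]
        simp
      simp only [initTape, h3]
    rw [← hcell] at h1
    obtain ⟨c1, h4, h5⟩ := at_succ hlen.le h h1
    obtain ⟨c2, h6, h7⟩ := ih (u ++ [a]) t w (by rw [hw]; simp) x z c1
      (by rw [List.length_append]; exact h4) h2
    refine ⟨c2, ?_, h5.trans h7⟩
    have : (u ++ [a]).length + v.length = u.length + (a :: v).length := by
      simp only [List.length_append, List.length_cons, List.length_nil]
      omega
    rw [← this]
    exact h6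

theorem at_fin {w : List A} {y : Set (M.Q × M.Q) × M.Q} {c : Cfg M}
    (h : At strict M w w.length y c) (hf : finX strict M y) :
    ∃ c', ReflTransGen (Step strict w.length) c c' ∧ c'.pos = w.length + 2 ∧ c'.state ∈ M.F := by
  obtain ⟨z, h1, h2⟩ := hf
  have hlast : initTape M w (w.length + 1) = .rm := by
    simp only [initTape, List.getElem?_eq_none (le_refl w.length)]
  rw [← hlast] at h1
  obtain ⟨c', h3, h4⟩ := at_succ le_rfl h h1
  refine ⟨c', h4, h3.2.1, ?_⟩
  rw [h3.1]
  exact h2

/-- The visited configurations. -/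
def Vis (T : ℕ) (f : ℕ → Cfg M) : Set (Cfg M) := {c | ∃ t, t ≤ T ∧ f t = c}

theorem at_unique {w : List A} {T : ℕ} {f : ℕ → Cfg M} (hf : IsComp strict M w T f) {m : ℕ}
    {y y' : Set (M.Q × M.Q) × M.Q} {c c' : Cfg M} (hc : c ∈ Vis T f) (hc' : c' ∈ Vis T f)
    (h : At strict M w m y c) (h' : At strict M w m y' c') : y = y' := by
  obtain ⟨t, ht, rfl⟩ := hc
  obtain ⟨t', ht', rfl⟩ := hc'
  have key : ∀ t t', t' ≤ T → (f t).pos = m + 1 → (m + 1) ∉ (f t').seen → ¬ t < t' := by
    intro t t' h1 h2 h3 h4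
    exact h3 ((mem_seen hf (m + 1) t' h1).2 ⟨t, h4, h2⟩)
  have hn : (m + 1) ∉ (f t).seen := by
    intro h1
    have := (h.2.2.1 (m + 1) (by omega)).1 h1
    omega
  have hn' : (m + 1) ∉ (f t').seen := by
    intro h1
    have := (h'.2.2.1 (m + 1) (by omega)).1 h1
    omega
  have h1 := key t t' ht' h.2.1 hn'
  have h2 := key t' t ht h'.2.1 hn
  have : t = t' := by omega
  subst this
  exact Prod.ext (h.2.2.2.2.2.symm.trans h'.2.2.2.2.2) (h.1.symm.trans h'.1)

end at_

section pth

variable {α : Type} {r : α → α → Prop}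

/-- A path from `a` to `b` through all the points of `V`. -/
def Pth (r : α → α → Prop) (a : α) (V : Set α) (b : α) : Prop :=
  ∃ (n : ℕ) (f : ℕ → α), f 0 = a ∧ f n = b ∧ (∀ t, t < n → r (f t) (f (t + 1))) ∧
    ∀ x ∈ V, ∃ t, t ≤ n ∧ f t = x

theorem Pth.of {a b : α} (h : ReflTransGen r a b) : Pth r a {b} b := by
  induction h with
  | refl => exact ⟨0, fun _ => a, rfl, rfl, fun t ht => absurd ht (Nat.not_lt_zero _),
      fun x hx => ⟨0, le_rfl, (Set.mem_singleton_iff.1 hx).symm⟩⟩
  | tail _ h ih =>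
    rename_i b c _
    obtain ⟨n, f, h1, h2, h3, _⟩ := ih
    refine ⟨n + 1, fun t => if t ≤ n then f t else c, ?_, ?_, ?_, ?_⟩
    · simp [h1]
    · simp
    · intro t ht
      by_cases h4 : t + 1 ≤ n
      · have h5 : t ≤ n := by omega
        simp only [h4, h5, if_true]
        exact h3 t h4
      · have h5 : t = n := by omega
        subst h5
        simp only [le_refl, if_true, h4, if_false]
        rw [h2]
        exact h
    · intro x hx
      refine ⟨n + 1, le_rfl, ?_⟩
      simp only [Nat.not_succ_le_self, if_false]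
      exact (Set.mem_singleton_iff.1 hx).symm

theorem Pth.trans {a b c : α} {V W : Set α} (h : Pth r a V b) (h' : Pth r b W c) :
    Pth r a (V ∪ W) c := by
  obtain ⟨n, f, h1, h2, h3, h4⟩ := h
  obtain ⟨m, g, g1, g2, g3, g4⟩ := h'
  have hg : ∀ i, (fun t => if t ≤ n then f t else g (t - n)) (n + i) = g i := by
    intro i
    by_cases hi : i = 0
    · subst hi
      simp [h2, g1]
    · have : ¬ n + i ≤ n := by omega
      simp only [this, if_false, Nat.add_sub_cancel_left]
  have hf : ∀ i, i ≤ n → (fun t => if t ≤ n then f t else g (t - n)) i = f i := by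
    intro i hi
    simp only [hi, if_true]
  refine ⟨n + m, fun t => if t ≤ n then f t else g (t - n), ?_, ?_, ?_, ?_⟩
  · rw [hf 0 (Nat.zero_le _), h1]
  · rw [hg, g2]
  · intro t ht
    by_cases h5 : t + 1 ≤ n
    · rw [hf t (by omega), hf (t + 1) h5]
      exact h3 t h5
    · obtain ⟨i, rfl⟩ : ∃ i, t = n + i := ⟨t - n, by omega⟩
      rw [hg i, Nat.add_assoc, hg (i + 1)]
      exact g3 i (by omega)
  · rintro x (hx | hx)
    · obtain ⟨t, ht, h5⟩ := h4 x hx
      exact ⟨t, by omega, by rw [hf t ht, h5]⟩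
    · obtain ⟨t, ht, h5⟩ := g4 x hx
      exact ⟨n + t, by omega, by rw [hg, h5]⟩

theorem Pth.mono {a b : α} {V W : Set α} (h : Pth r a V b) (hW : W ⊆ V) : Pth r a W b := by
  obtain ⟨n, f, h1, h2, h3, h4⟩ := h
  exact ⟨n, f, h1, h2, h3, fun x hx => h4 x (hW hx)⟩

end pth

end Pool.Agent.NH88.FA
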