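import Mathlib
import Pool.Agent.NH88.FA.Mch

set_option autoImplicit false

/-!
1-limited automata of finite ambiguity: the matrices which count the runs of the table automaton.
-/

namespace Pool.Agent.NH88.FA

open Relation Pool.Agent.H630R2.LA Pool.Agent.R620.KV

/-- `M` has at most `a` accepting computations on each word: among any `a + 1` of them two are
equal. -/
def AmbiguityLE (strict : Prop) (a : ℕ) {A : Type} (M : LimAut A) : Prop :=
  ∀ (w : List A) (T : Fin (a + 1) → ℕ) (f : Fin (a + 1) → ℕ → Cfg M),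
    (∀ i, IsAcc strict M w (T i) (f i)) →
    ∃ i j, i ≠ j ∧ T i = T j ∧ ∀ t, t ≤ T i → f i t = f j t

/-- The states that can be entered by a move to the left. -/
def Lft {A : Type} (M : LimAut A) : Set M.Q := {q | ∃ p σ b, (q, b, false) ∈ M.δ p σ}

section res

variable {A : Type} {strict : Prop} {M : LimAut A}

/-- Pairs of a table, restricted to the states that can be entered by a move to the left, and a
state. -/
abbrev EE (M : LimAut A) : Type := Set (Lft M × M.Q) × M.Q

/-- The restriction. -/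
def res (y : Set (M.Q × M.Q) × M.Q) : EE M := ({x | (x.1.1, x.2) ∈ y.1}, y.2)

theorem res_iff {y y' : Set (M.Q × M.Q) × M.Q} (h : res y = res y') {q s : M.Q}
    (hq : q ∈ Lft M) : (q, s) ∈ y.1 ↔ (q, s) ∈ y'.1 := by
  have h1 := congrArg Prod.fst h
  have h2 := Set.ext_iff.1 h1 (⟨q, hq⟩, s)
  exact h2

theorem ext_res {y y' : Set (M.Q × M.Q) × M.Q} (h : res y = res y') (σ : Sym M.W) :
    ext strict M y.1 σ = ext strict M y'.1 σ := by
  have key : ∀ {y y' : Set (M.Q × M.Q) × M.Q}, res y = res y' →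
      ext strict M y.1 σ ⊆ ext strict M y'.1 σ := by
    rintro y y' h x ⟨s, h1, h2⟩
    refine ⟨s, ReflTransGen.mono ?_ _ _ h1, h2⟩
    rintro u z ⟨r, h3, h4⟩
    refine ⟨r, h3, ?_⟩
    obtain ⟨b, h5, _⟩ := h3
    exact (res_iff h ⟨u, σ, b, h5⟩).1 h4
  exact Set.Subset.antisymm (key h) (key h.symm)

theorem nstep_res {y y' z : Set (M.Q × M.Q) × M.Q} (h : res y = res y') {σ : Sym M.W}
    (hs : nstep strict M σ y z) : nstep strict M σ y' z := by
  obtain ⟨q, b, d, h1, h2, h3, h4⟩ := hs
  have h5 : (res y).2 = (res y').2 := congrArg Prod.snd h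
  have h5 : y.2 = y'.2 := h5
  refine ⟨q, b, d, by rw [← h5]; exact h1, by rw [← ext_res h]; exact h2, h3, ?_⟩
  intro hd
  subst hd
  obtain ⟨s, h6, h7⟩ := h4 rfl
  exact ⟨s, (res_iff h ⟨_, _, _, h1⟩).1 h6, h7⟩

theorem runs_res {v : List A} (hv : v ≠ []) {y y' z : Set (M.Q × M.Q) × M.Q} (h : res y = res y')
    (hr : runs strict M v y z) : runs strict M v y' z := by
  cases v with
  | nil => exact absurd rfl hv
  | cons a v =>
    obtain ⟨x, h1, h2⟩ := hr
    exact ⟨x, nstep_res h h1, h2⟩

theorem finX_res {y y' : Set (M.Q × M.Q) × M.Q} (h : res y = res y') (hf : finX strict M y) :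
    finX strict M y' := by
  obtain ⟨z, h1, h2⟩ := hf
  exact ⟨z, nstep_res h h1, h2⟩

end res

section seqs

variable {A α : Type} {strict : Prop} {M : LimAut A} {κ : α → List A}

/-- The word coded by a list. -/
def cod (κ : α → List A) (x : List α) : List A := (x.map κ).flatten

theorem cod_append (x y : List α) : cod κ (x ++ y) = cod κ x ++ cod κ y := by
  unfold cod
  rw [List.map_append, List.flatten_append]

theorem cod_cons (X : α) (x : List α) : cod κ (X :: x) = κ X ++ cod κ x := by
  unfold cod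
  rw [List.map_cons, List.flatten_cons]

/-- Reachable pairs. -/
def Reach (strict : Prop) (M : LimAut A) (κ : α → List A) (e : EE M) : Prop :=
  ∃ (u : List α) (y : Set (M.Q × M.Q) × M.Q), res y = e ∧ runs strict M (cod κ u) (x0 strict M) y

/-- Pairs from which one can accept. -/
def CoReach (strict : Prop) (M : LimAut A) (κ : α → List A) (e : EE M) : Prop :=
  ∃ (v : List α) (y z : Set (M.Q × M.Q) × M.Q), res y = e ∧ runs strict M (cod κ v) y z ∧
    finX strict M z

theorem coReach_any {e : EE M} (h : CoReach strict M κ e) : ∃ v : List α,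
    ∀ y : Set (M.Q × M.Q) × M.Q, res y = e →
      ∃ z, runs strict M (cod κ v) y z ∧ finX strict M z := by
  obtain ⟨v, y, z, h1, h2, h3⟩ := h
  refine ⟨v, fun y' h4 => ?_⟩
  by_cases hv : cod κ v = []
  · rw [hv] at h2 ⊢
    have h5 : y = z := h2
    refine ⟨y', rfl, finX_res (y := z) ?_ h3⟩
    rw [← h5, h1, h4]
  · exact ⟨z, runs_res hv (h1.trans h4.symm) h2, h3⟩

/-- Edges between useful pairs. -/
def Edge (strict : Prop) (M : LimAut A) (κ : α → List A) (X : α) (e e' : EE M) : Prop :=
  (Reach strict M κ e ∧ CoReach strict M κ e) ∧ (Reach strict M κ e' ∧ CoReach strict M κ e') ∧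
    ∃ y y' : Set (M.Q × M.Q) × M.Q, res y = e ∧ res y' = e' ∧ runs strict M (κ X) y y'

/-- Runs of the table automaton, with the list of the visited pairs. -/
def Seqs (strict : Prop) (M : LimAut A) (κ : α → List A) :
    List α → EE M → List (EE M) → EE M → Prop
  | [], e, l, e' => l = [] ∧ e = e'
  | X :: x, e, l, e' => ∃ e1 l', l = e1 :: l' ∧ Edge strict M κ X e e1 ∧
      Seqs strict M κ x e1 l' e'

/-- The computation passes the boundaries with the pairs of the list. -/
def Pas (strict : Prop) (M : LimAut A) (κ : α → List A) (V : Set (Cfg M)) (w : List A) :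
    List α → ℕ → List (EE M) → Prop
  | [], _, l => l = []
  | X :: x, m, l => ∃ e1 l', l = e1 :: l' ∧
      (∃ c ∈ V, ∃ y, At strict M w (m + (κ X).length) y c ∧ res y = e1) ∧
      Pas strict M κ V w x (m + (κ X).length) l'

theorem Pas.mono {V W : Set (Cfg M)} (hV : V ⊆ W) {w : List A} (x : List α) :
    ∀ (m : ℕ) (l : List (EE M)), Pas strict M κ V w x m l → Pas strict M κ W w x m l := by
  induction x with
  | nil => exact fun m l h => h
  | cons X x ih =>
    rintro m l ⟨e1, l', h1, ⟨c, hc, h2⟩, h3⟩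
    exact ⟨e1, l', h1, ⟨c, hV hc, h2⟩, ih _ _ h3⟩

theorem Pas.unique {w : List A} {T : ℕ} {f : ℕ → Cfg M} (hf : IsComp strict M w T f)
    (x : List α) : ∀ (m : ℕ) (l l' : List (EE M)), Pas strict M κ (Vis T f) w x m l →
      Pas strict M κ (Vis T f) w x m l' → l = l' := by
  induction x with
  | nil =>
    intro m l l' h h'
    have h1 : l = [] := h
    have h2 : l' = [] := h'
    rw [h1, h2]
  | cons X x ih =>
    rintro m l l' ⟨e1, l1, rfl, ⟨c, hc, y, h2, h3⟩, h4⟩ ⟨e2, l2, rfl, ⟨c', hc', y', h5, h6⟩, h7⟩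
    have h8 := at_unique hf hc hc' h2 h5
    rw [← h3, ← h6, h8, ih _ _ _ h4 h7]

theorem seqs_comp (hκ : ∀ X, κ X ≠ []) (x : List α) : ∀ (u t w : List A), w = u ++ cod κ x ++ t →
    ∀ (e : EE M) (l : List (EE M)) (e' : EE M) (y : Set (M.Q × M.Q) × M.Q) (c : Cfg M),
    res y = e → At strict M w u.length y c → Seqs strict M κ x e l e' →
    ∃ y' c' V, res y' = e' ∧ At strict M w (u.length + (cod κ x).length) y' c' ∧
      Pth (Step strict w.length) c V c' ∧ Pas strict M κ V w x u.length l := by
  induction x with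
  | nil =>
    rintro u t w hw e l e' y c he h ⟨rfl, rfl⟩
    exact ⟨y, c, {c}, he, h, Pth.of ReflTransGen.refl, rfl⟩
  | cons X x ih =>
    rintro u t w hw e l e' y c he h ⟨e1, l', rfl, ⟨_, _, y0, y1, h1, h2, h3⟩, h4⟩
    have h5 := runs_res (hκ X) (h1.trans he.symm) h3
    have hw' : w = u ++ κ X ++ (cod κ x ++ t) := by
      rw [hw, cod_cons]
      simp only [List.append_assoc]
    obtain ⟨c1, h6, h7⟩ := at_runs (κ X) u _ w hw' y1 y c h h5
    have hlen : (u ++ κ X).length = u.length + (κ X).length := List.length_append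
    obtain ⟨y', c', V, h8, h9, h10, h11⟩ := ih (u ++ κ X) t w (by
      rw [hw, cod_cons]
      simp only [List.append_assoc]) e1 l' e' y1 c1 h2 (by rw [hlen]; exact h6) h4
    refine ⟨y', c', {c1} ∪ V, h8, ?_, (Pth.of h7).trans h10, e1, l', rfl, ?_, ?_⟩
    · rw [cod_cons, List.length_append, ← Nat.add_assoc, ← hlen]
      exact h9
    · exact ⟨c1, Or.inl rfl, y1, h6, h2⟩
    · rw [← hlen]
      exact Pas.mono (Set.subset_union_right) _ _ _ h11

theorem seqs_acc (hκ : ∀ X, κ X ≠ []) (x : List α) {e e' : EE M} (he : Reach strict M κ e)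
    (he' : CoReach strict M κ e') : ∃ u v : List α, ∀ l, Seqs strict M κ x e l e' →
      ∃ T f, IsAcc strict M (cod κ (u ++ x ++ v)) T f ∧
        Pas strict M κ (Vis T f) (cod κ (u ++ x ++ v)) x (cod κ u).length l := by
  obtain ⟨u, y0, h1, h2⟩ := he
  obtain ⟨v, h3⟩ := coReach_any he'
  refine ⟨u, v, fun l hl => ?_⟩
  set w := cod κ (u ++ x ++ v) with hw
  have hw1 : w = cod κ u ++ cod κ x ++ cod κ v := by rw [hw, cod_append, cod_append]
  obtain ⟨c0, h4, h5⟩ := at_runs (cod κ u) [] (cod κ x ++ cod κ v) w (by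
    rw [hw1]; simp only [List.nil_append, List.append_assoc]) y0 (x0 strict M) (init M w)
    (at_init w) h2
  have h4' : At strict M w (cod κ u).length y0 c0 := by
    simpa using h4
  obtain ⟨y', c', V, h6, h7, h8, h9⟩ := seqs_comp hκ x (cod κ u) (cod κ v) w hw1 e l e' y0 c0 h1
    h4' hl
  obtain ⟨z, h10, h11⟩ := h3 y' h6
  obtain ⟨c1, h12, h13⟩ := at_runs (cod κ v) (cod κ u ++ cod κ x) [] w (by
    rw [hw1, List.append_nil]) z y' c' (by rw [List.length_append]; exact h7) h10
  obtain ⟨c2, h14, h15, h16⟩ := at_fin (w := w) (y := z) (c := c1) (by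
    have : w.length = (cod κ u ++ cod κ x).length + (cod κ v).length := by
      rw [hw1, List.length_append]
    rw [this]
    exact h12) h11
  obtain ⟨n, f, f1, f2, f3, f4⟩ := ((Pth.of h5).trans h8).trans (Pth.of (h13.trans h14))
  refine ⟨n, f, ⟨⟨f1, f3⟩, by rw [f2]; exact h15, by rw [f2]; exact h16⟩, ?_⟩
  refine Pas.mono ?_ _ _ _ h9
  intro c hc
  exact f4 c (Or.inl (Or.inr hc))

theorem seqs_tr (x : List α) (hx : x ≠ []) {e e' : EE M} {l : List (EE M)}
    (h : Seqs strict M κ x e l e') : Reach strict M κ e ∧ CoReach strict M κ e' := by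
  induction x generalizing e l with
  | nil => exact absurd rfl hx
  | cons X x ih =>
    obtain ⟨e1, l', h1, h2, h3⟩ := h
    refine ⟨h2.1.1, ?_⟩
    by_cases hx' : x = []
    · subst hx'
      have : e1 = e' := h3.2
      rw [← this]
      exact h2.2.1.2
    · exact (ih hx' h3).2

open Classical in
/-- The matrix of a letter. -/
noncomputable def ph1 (strict : Prop) (M : LimAut A) (κ : α → List A) (X : α) :
    Matrix (EE M) (EE M) ℕ := Matrix.of fun e e' => if Edge strict M κ X e e' then 1 else 0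

/-- The matrix of a word. -/
noncomputable def ph (strict : Prop) (M : LimAut A) (κ : α → List A) [Fintype (EE M)]
    [DecidableEq (EE M)] (x : List α) : Matrix (EE M) (EE M) ℕ := (x.map (ph1 strict M κ)).prod

variable [Fintype (EE M)] [DecidableEq (EE M)]

theorem ph_append (x y : List α) :
    ph strict M κ (x ++ y) = ph strict M κ x * ph strict M κ y := by
  unfold ph
  rw [List.map_append, List.prod_append]

theorem ph_cons (X : α) (x : List α) :
    ph strict M κ (X :: x) = ph1 strict M κ X * ph strict M κ x := by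
  unfold ph
  rw [List.map_cons, List.prod_cons]

theorem ph_nil : ph strict M κ ([] : List α) = 1 := rfl

theorem ph_count (x : List α) : ∀ e e' : EE M, ∃ F : Finset (List (EE M)),
    F.card = ph strict M κ x e e' ∧ ∀ l ∈ F, Seqs strict M κ x e l e' := by
  classical
  induction x with
  | nil =>
    intro e e'
    rw [ph_nil]
    by_cases h : e = e'
    · subst h
      refine ⟨{[]}, by simp, ?_⟩
      intro l hl
      exact ⟨Finset.mem_singleton.1 hl, rfl⟩
    · refine ⟨∅, ?_, ?_⟩
      · rw [Matrix.one_apply_ne h, Finset.card_empty]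
      · intro l hl
        exact absurd hl (Finset.notMem_empty l)
  | cons X x ih =>
    intro e e'
    choose F hF1 hF2 using fun e1 => ih e1 e'
    let G : EE M → Finset (List (EE M)) := fun e1 =>
      if Edge strict M κ X e e1 then (F e1).image (fun l => e1 :: l) else ∅
    refine ⟨Finset.univ.biUnion G, ?_, ?_⟩
    · rw [Finset.card_biUnion]
      · rw [ph_cons, Matrix.mul_apply]
        apply Finset.sum_congr rfl
        intro e1 _
        by_cases h : Edge strict M κ X e e1
        · have h1 : ph1 strict M κ X e e1 = 1 := if_pos h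
          have h2 : G e1 = (F e1).image (fun l => e1 :: l) := if_pos h
          rw [h1, one_mul, h2, Finset.card_image_of_injective _ (List.cons_injective), hF1]
        · have h1 : ph1 strict M κ X e e1 = 0 := if_neg h
          have h2 : G e1 = ∅ := if_neg h
          rw [h1, zero_mul, h2, Finset.card_empty]
      · intro e1 _ e2 _ hne
        have hmem : ∀ e1 l, l ∈ G e1 → ∃ l', l = e1 :: l' := by
          intro e1 l hl
          by_cases h : Edge strict M κ X e e1
          · have h2 : G e1 = (F e1).image (fun l => e1 :: l) := if_pos h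
            rw [h2, Finset.mem_image] at hl
            obtain ⟨l', _, h3⟩ := hl
            exact ⟨l', h3.symm⟩
          · have h2 : G e1 = ∅ := if_neg h
            rw [h2] at hl
            exact absurd hl (Finset.notMem_empty l)
        refine Finset.disjoint_left.2 fun l h1 h2 => ?_
        obtain ⟨l1, h3⟩ := hmem e1 l h1
        obtain ⟨l2, h4⟩ := hmem e2 l h2
        rw [h3] at h4
        exact hne (List.cons.inj h4).1
    · intro l hl
      rw [Finset.mem_biUnion] at hl
      obtain ⟨e1, _, h1⟩ := hl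
      by_cases h : Edge strict M κ X e e1
      · have h2 : G e1 = (F e1).image (fun l => e1 :: l) := if_pos h
        rw [h2, Finset.mem_image] at h1
        obtain ⟨l', h3, h4⟩ := h1
        exact ⟨e1, l', h4.symm, h, hF2 e1 l' h3⟩
      · have h2 : G e1 = ∅ := if_neg h
        rw [h2] at h1
        exact absurd h1 (Finset.notMem_empty l)

theorem ph_le (hκ : ∀ X, κ X ≠ []) {a : ℕ} (ha : AmbiguityLE strict a M) (x : List α)
    (e e' : EE M) : ph strict M κ x e e' ≤ a + 1 := by
  classical
  by_cases hx : x = []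
  · subst hx
    rw [ph_nil, Matrix.one_apply]
    split_ifs <;> omega
  obtain ⟨F, hF1, hF2⟩ := ph_count (strict := strict) (κ := κ) x e e'
  by_contra hcon
  have hcard : a + 1 ≤ F.card := by omega
  obtain ⟨l0, hl0⟩ : F.Nonempty := Finset.card_pos.1 (by omega)
  obtain ⟨h1, h2⟩ := seqs_tr x hx (hF2 l0 hl0)
  obtain ⟨u, v, h3⟩ := seqs_acc hκ x h1 h2
  obtain ⟨G, hG1, hG2⟩ := Finset.exists_subset_card_eq hcard
  let g : Fin (a + 1) ≃ G := (finCongr hG2.symm).trans G.equivFin.symm
  have hg : ∀ i, ∃ T f, IsAcc strict M (cod κ (u ++ x ++ v)) T f ∧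
      Pas strict M κ (Vis T f) (cod κ (u ++ x ++ v)) x (cod κ u).length (g i).1 :=
    fun i => h3 _ (hF2 _ (hG1 (g i).2))
  choose T f h4 h5 using hg
  obtain ⟨i, j, h6, h7, h8⟩ := ha _ T f h4
  have h9 : Vis (T j) (f j) = Vis (T i) (f i) := by
    ext c
    constructor
    · rintro ⟨t, ht, rfl⟩
      exact ⟨t, by omega, h8 t (by omega)⟩
    · rintro ⟨t, ht, rfl⟩
      exact ⟨t, by omega, (h8 t ht).symm⟩
  have h10 := h5 j
  rw [h9] at h10
  have h11 := Pas.unique (h4 i).toIsComp x _ _ _ (h5 i) h10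
  exact h6 (g.injective (Subtype.ext h11))

theorem ph_zero (hκ : ∀ X, κ X ≠ []) (x : List α) (hx : x ≠ [])
    (h : ∀ u v : List α, cod κ (u ++ x ++ v) ∉ M.language strict) : ph strict M κ x = 0 := by
  ext e e'
  rw [Matrix.zero_apply]
  by_contra hne
  obtain ⟨F, hF1, hF2⟩ := ph_count (strict := strict) (κ := κ) x e e'
  obtain ⟨l0, hl0⟩ : F.Nonempty := Finset.card_pos.1 (by omega)
  obtain ⟨h1, h2⟩ := seqs_tr x hx (hF2 l0 hl0)
  obtain ⟨u, v, h3⟩ := seqs_acc hκ x h1 h2
  obtain ⟨T, f, h4, _⟩ := h3 l0 (hF2 l0 hl0)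
  apply h u v
  refine ⟨f T, ?_, h4.last, h4.final⟩
  have : ∀ t, t ≤ T → ReflTransGen (Step strict (cod κ (u ++ x ++ v)).length)
      (init M (cod κ (u ++ x ++ v))) (f t) := by
    intro t
    induction t with
    | zero => intro _; rw [h4.start]
    | succ t ih => intro ht; exact (ih (by omega)).tail (h4.step t (by omega))
  exact this T le_rfl

theorem ph_ge (x : List α) : ∀ (y0 y z : Set (M.Q × M.Q) × M.Q) (u v : List α),
    runs strict M (cod κ u) (x0 strict M) y0 → runs strict M (cod κ x) y0 y →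
    runs strict M (cod κ v) y z → finX strict M z → 1 ≤ ph strict M κ x (res y0) (res y) := by
  classical
  induction x with
  | nil =>
    intro y0 y z u v _ h2 _ _
    have : y0 = y := h2
    subst this
    rw [ph_nil, Matrix.one_apply_eq]
  | cons X x ih =>
    intro y0 y z u v h1 h2 h3 h4
    rw [cod_cons, runs_append] at h2
    obtain ⟨y1, h5, h6⟩ := h2
    have h7 : runs strict M (cod κ (u ++ [X])) (x0 strict M) y1 := by
      rw [cod_append, runs_append]
      refine ⟨y0, h1, ?_⟩
      rw [cod_cons, runs_append]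
      exact ⟨y1, h5, rfl⟩
    have h8 := ih y1 y z (u ++ [X]) v h7 h6 h3 h4
    have h9 : Edge strict M κ X (res y0) (res y1) := by
      refine ⟨⟨⟨u, y0, rfl, h1⟩, ⟨X :: x ++ v, y0, z, rfl, ?_, h4⟩⟩,
        ⟨⟨u ++ [X], y1, rfl, h7⟩, ⟨x ++ v, y1, z, rfl, ?_, h4⟩⟩, y0, y1, rfl, rfl, h5⟩
      · rw [List.cons_append, cod_cons, runs_append]
        refine ⟨y1, h5, ?_⟩
        rw [cod_append, runs_append]
        exact ⟨y, h6, h3⟩
      · rw [cod_append, runs_append]
        exact ⟨y, h6, h3⟩
    rw [ph_cons, Matrix.mul_apply]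
    have h10 : ph1 strict M κ X (res y0) (res y1) = 1 := if_pos h9
    calc 1 ≤ ph1 strict M κ X (res y0) (res y1) * ph strict M κ x (res y1) (res y) := by
          rw [h10, one_mul]; exact h8
      _ ≤ _ := Finset.single_le_sum
          (f := fun e1 => ph1 strict M κ X (res y0) e1 * ph strict M κ x e1 (res y))
          (fun _ _ => Nat.zero_le _) (Finset.mem_univ _)

theorem ph_ne (x : List α) (h : cod κ x ∈ M.language strict) : ph strict M κ x ≠ 0 := by
  rw [mem_language_runs] at h
  obtain ⟨y, h1, h2⟩ := h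
  have h3 := ph_ge (κ := κ) x (x0 strict M) y y [] [] rfl h1 rfl h2
  intro h4
  rw [h4, Matrix.zero_apply] at h3
  omega

end seqs

end Pool.Agent.NH88.FA
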