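import Mathlib

set_option autoImplicit false

/-!
Statements for project FA (MP_0036f5_lc, helper88): finitely ambiguous 1-limited automata.
-/

namespace Pool.Agent.NH88.FA

/-- FA-MAT.  A family of matrices of natural numbers with bounded entries, closed under products:
some linear functional is constant and positive on the products `φ z` with `Full z`.

Proof.  (0) For `M = φ x`, `Full x`, some power `M ^ k`, `k ≥ 1`, is idempotent (the powers are `φ` of
the words `x ++ ... ++ x`, which are `Full`, and there are finitely many matrices with entries `≤ a`;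
if `M ^ m = M ^ (m + d)`, `d ≥ 1`, take `k = d * (m + 1)`).
(1) Let `P` be an idempotent matrix over `ℕ`, `x → y` iff `1 ≤ P x y` (transitive since `P * P = P`) and
`I = {i | P i i ≠ 0}`.  Then `P i i ≤ 1` (`P i i ≥ P i i * P i i`); `P i j = 0` for `i ≠ j` in `I`
(`P i j ≥ P i i * P i j + P i j * P j j`).  If `x → k` there is `i ∈ I` with `x → i → k`: strong induction
on the number of the `t` with `x → t → k`; there is `m` with `x → m → k` since `P * P = P`; if `m ∉ I` use
the pair `(x, m)`, the number is smaller since `m` itself is missing.  So for `k ∉ I` never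
`x → k → y` (otherwise `x → i → k → j → y` with `i, j ∈ I`; `i ≠ j` contradicts `P i j = 0`, and `i = j`
gives `P i i ≥ P i i * P i i + P i k * P k i ≥ 2`).  Hence `P = P * D * P`, where `D` is the
diagonal matrix of `I`, and `P ≠ 0` implies `I ≠ ∅`, that is `1 ≤ trace P = I.card`.
(2) Choose `p` with `Full p`, `P = φ p` idempotent and `r = trace P` minimal; `1 ≤ r`.  Put
`v j = ∑ i ∈ I, P i j` and `u j = ∑ i ∈ I, P j i`, so that
`∑ i, ∑ j, v i * φ z i j * u j = ∑ i ∈ I, ∑ j ∈ I, H i j` with `H = P * φ z * P = φ (p ++ z ++ p)`.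
(3) Let `Full z`, and let `Q = H ^ k`, `k ≥ 1`, be idempotent; `Q = P * Q = Q * P = φ q`, `Full q`, so
`r ≤ trace Q`.  `trace Q = trace (P * D * P * Q) = trace (D * P * Q * P) = trace (D * Q) = ∑ i ∈ I, Q i i ≤ I.card = r`
(cyclicity of the trace, `P * D * P = P`).  So `Q i i = 1` for `i ∈ I`, `Q i j = 0` for `i ≠ j` in `I`, so
`D * Q * D = D` and `Q = P * Q * P = P * D * P * Q * P * D * P = P * (D * Q * D) * P = P`.
(4) `H * D * H = H * H` (since `H = H * P = P * H`), so `(D * H * D) ^ k = D * H ^ k * D = D * P * D = D`.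
With `G = D * H * D` and `G' = D * H ^ (k - 1) * D` (`G' = D` if `k = 1`) one has `G * G' = D = G' * G`;
every row `i ∈ I` of `G'` has sum `≥ 1`, so `∑ j ∈ I, G i j ≤ ∑ j ∈ I, G i j * (∑ l ∈ I, G' j l) = 1`, and
it is `≥ 1` since the row `i` of `G * G' = D` is not zero.  So the sum of all entries is `I.card = r`. -/
def S_MAT : Prop :=
  ∀ (E α : Type) [Fintype E] [DecidableEq E] (φ : List α → Matrix E E ℕ) (Full : List α → Prop)
    (a : ℕ),
    (∀ x y, φ (x ++ y) = φ x * φ y) → (∀ x i j, φ x i j ≤ a) →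
    (∀ x y, Full x → Full y → Full (x ++ y)) → (∃ x, Full x) → (∀ x, Full x → φ x ≠ 0) →
    ∃ (v u : E → ℕ) (r : ℕ), 1 ≤ r ∧ ∀ z, Full z → ∑ i, ∑ j, v i * φ z i j * u j = r

/-- FA-IDEM: part (1) of the proof of FA-MAT. -/
def S_IDEM : Prop :=
  ∀ (E : Type) [Fintype E] [DecidableEq E] (P : Matrix E E ℕ), P * P = P →
    (∀ i, P i i ≤ 1) ∧ (∀ i j, i ≠ j → P i i ≠ 0 → P j j ≠ 0 → P i j = 0) ∧
    P * Matrix.diagonal (fun i => if P i i = 0 then 0 else 1) * P = P

/-- FA-POW: part (0) of the proof of FA-MAT. -/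
def S_POW : Prop :=
  ∀ (E : Type) [Fintype E] [DecidableEq E] (M : Matrix E E ℕ) (a : ℕ),
    (∀ k, 1 ≤ k → ∀ i j, (M ^ k) i j ≤ a) → ∃ k, 1 ≤ k ∧ M ^ k * M ^ k = M ^ k

/-- FA-TR: part (3) of the proof of FA-MAT. -/
def S_TR : Prop :=
  ∀ (E : Type) [Fintype E] [DecidableEq E] (P Q : Matrix E E ℕ), P * P = P → Q * Q = Q →
    P * Q = Q → Q * P = Q → P.trace ≤ Q.trace → Q = P

/-- FA-PERM: part (4) of the proof of FA-MAT. -/
def S_PERM : Prop :=
  ∀ (E : Type) [Fintype E] [DecidableEq E] (P H : Matrix E E ℕ) (k : ℕ), P * P = P →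
    P * H = H → H * P = H → 1 ≤ k → H ^ k = P →
    ∑ i ∈ Finset.univ.filter (fun i => P i i ≠ 0), ∑ j ∈ Finset.univ.filter (fun j => P j j ≠ 0),
      H i j = P.trace

end Pool.Agent.NH88.FA
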