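import Mathlib
import Pool.Agent.NH19.LA.MnVisits
import Pool.Agent.NH19.LA.Final
import Pool.Agent.NH88.FA.Seq
import Pool.Agent.NH88.FA.Stm

set_option autoImplicit false

/-!
Lower bounds for 1-limited automata of finite ambiguity and for deterministic ones with few states
that can be entered by a move to the left.
-/

namespace Pool.Agent.NH88.FA

open Relation Pool.Agent.H630R2.LA Pool.Agent.R620.KV Pool.Agent.NH19.LA

section words

variable {n : ℕ}

theorem codeX_ne (n : ℕ) (X : Finset (Vx n × Vx n)) : codeX n X ≠ [] := by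
  intro h
  have h1 := length_codeX_pos n X
  rw [h, List.length_nil] at h1
  omega

theorem full_append {x y : List (Finset (Vx n × Vx n))} (hx : Full x) (hy : Full y) :
    Full (x ++ y) := by
  intro s t
  rw [rl_app]
  exact ⟨s, hx s s, hy s t⟩

theorem full_univ : Full [(Finset.univ : Finset (Vx n × Vx n))] :=
  fun _ t => ⟨t, Finset.mem_univ _, rfl⟩

theorem full_wab {S T : Finset (Vx n)} (h : (S ∩ T).Nonempty) : Full (wa S ++ wb T) := by
  intro s t
  obtain ⟨m, hm⟩ := h
  rw [Finset.mem_inter] at hm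
  rw [rl_app]
  exact ⟨m, ⟨m, by simp [hm.1], rfl⟩, t, by simp [hm.2], rfl⟩

theorem live_wab' (S T : Finset (Vx n)) : Live (wa S ++ wb T) ↔ (S ∩ T).Nonempty := by
  have := live_wab 0 S T
  rw [pw_zero, List.append_nil] at this
  exact this

end words

section lower

variable {n : ℕ} {strict : Prop} {M : LimAut (Ltr n)}

theorem mem_lang (hz : St_zip) (hm : St_mach) (hn : 1 ≤ n)
    (hL : M.language strict = (Mn n).language strict) (x : List (Finset (Vx n × Vx n))) :
    cod (codeX n) x ∈ M.language strict ↔ Live x := by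
  show code n x ∈ _ ↔ _
  rw [hL, hz, hm strict n hn]

/-- A bilinear sum. -/
theorem bilin {E : Type} [Fintype E] (v u : E → ℕ) (P Q : Matrix E E ℕ) :
    ∑ e, (∑ i, v i * P i e) * (∑ j, Q e j * u j) = ∑ i, ∑ j, v i * (P * Q) i j * u j := by
  have h1 : ∀ e, (∑ i, v i * P i e) * (∑ j, Q e j * u j) =
      ∑ i, ∑ j, v i * (P i e * Q e j) * u j := by
    intro e
    rw [Finset.sum_mul_sum]
    refine Finset.sum_congr rfl fun i _ => Finset.sum_congr rfl fun j _ => ?_
    ring
  simp only [h1]
  rw [Finset.sum_comm]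
  refine Finset.sum_congr rfl fun i _ => ?_
  rw [Finset.sum_comm]
  refine Finset.sum_congr rfl fun j _ => ?_
  rw [Matrix.mul_apply, Finset.mul_sum, Finset.sum_mul]

theorem amb_lower (hMAT : S_MAT) (hz : St_zip) (hm : St_mach) (a : ℕ) (hn : 1 ≤ n)
    (ha : AmbiguityLE strict a M) (hL : M.language strict = (Mn n).language strict) :
    2 ^ (2 ^ n) ≤ Nat.card M.Q * 2 ^ ((Lft M).ncard * Nat.card M.Q) + 1 := by
  classical
  have hfin := M.finQ
  let _ : Fintype (EE M) := Fintype.ofFinite _
  have hκ : ∀ X, codeX n X ≠ [] := codeX_ne n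
  have hlang := mem_lang (strict := strict) (M := M) hz hm hn hL
  obtain ⟨v, u, r, hr, hv⟩ := hMAT (EE M) (Finset (Vx n × Vx n)) (ph strict M (codeX n)) Full
    (a + 1) ph_append (ph_le hκ ha) (fun x y hx hy => full_append hx hy) ⟨_, full_univ⟩ (by
      intro x hx
      apply ph_ne
      rw [hlang]
      exact ⟨fun _ => false, fun _ => false, hx _ _⟩)
  have hr0 : (r : ℚ) ≠ 0 := by
    have : r ≠ 0 := by omega
    exact_mod_cast this
  have key := rank_bound (V := Vx n) (E := EE M)
    (fun S e => ((∑ i, v i * ph strict M (codeX n) (wa S) i e : ℕ) : ℚ) / r)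
    (fun T e => ((∑ j, ph strict M (codeX n) (wb T) e j * u j : ℕ) : ℚ)) (by
    intro S T
    have h1 : ∀ e, ((∑ i, v i * ph strict M (codeX n) (wa S) i e : ℕ) : ℚ) / r *
        ((∑ j, ph strict M (codeX n) (wb T) e j * u j : ℕ) : ℚ) =
        (((∑ i, v i * ph strict M (codeX n) (wa S) i e) *
          (∑ j, ph strict M (codeX n) (wb T) e j * u j) : ℕ) : ℚ) / r := by
      intro e
      push_cast
      ring
    simp only [h1]
    rw [← Finset.sum_div, ← Nat.cast_sum, bilin, ← ph_append]
    by_cases hST : (S ∩ T).Nonempty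
    · rw [if_pos hST, hv _ (full_wab hST), div_self hr0]
    · rw [if_neg hST]
      have h2 : ph strict M (codeX n) (wa S ++ wb T) = 0 := by
        apply ph_zero hκ _ (by simp [wa])
        intro x y hxy
        rw [hlang] at hxy
        exact hST ((live_wab' S T).1 (live_right (live_left hxy)))
      rw [h2]
      simp)
  have h3 : Fintype.card (EE M) = Nat.card M.Q * 2 ^ ((Lft M).ncard * Nat.card M.Q) := by
    rw [← Nat.card_eq_fintype_card, Nat.card_prod, Nat.mul_comm]
    congr 1
    have h4 : Nat.card (Set (Lft M × M.Q)) = Nat.card ((Lft M × M.Q) → Prop) := rfl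
    rw [h4, Nat.card_fun, Nat.card_prod, Nat.card_coe_set_eq]
    simp
  have h5 : Fintype.card (Vx n) = 2 ^ n := by simp [Vx]
  rw [h3, h5] at key
  exact key

theorem runs_FT (hd : M.Deterministic) (u : List (Ltr n)) :
    ∀ x y : Set (M.Q × M.Q) × M.Q, FT x.1 → runs strict M u x y → FT y.1 := by
  induction u with
  | nil =>
    intro x y hx h
    have : x = y := h
    rw [← this]
    exact hx
  | cons a u ih =>
    rintro x y hx ⟨z, h1, h2⟩
    exact ih z y (nstep_unique hd hx h1 h1).2 h2

open Classical in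
/-- The function of a table. -/
noncomputable def fn (y : Set (M.Q × M.Q) × M.Q) : (Lft M → Option M.Q) × M.Q :=
  (fun q => if h : ∃ s, (q.1, s) ∈ y.1 then some h.choose else none, y.2)

theorem fn_iff {y : Set (M.Q × M.Q) × M.Q} (hy : FT y.1) (q : Lft M) (s : M.Q) :
    (fn y).1 q = some s ↔ (q.1, s) ∈ y.1 := by
  unfold fn
  constructor
  · intro h
    dsimp only at h
    split_ifs at h with h1
    simp only [Option.some.injEq] at h
    rw [← h]
    exact h1.choose_spec
  · intro h
    have h1 : ∃ s, (q.1, s) ∈ y.1 := ⟨s, h⟩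
    dsimp only
    rw [dif_pos h1]
    congr 1
    exact hy _ _ _ h1.choose_spec h

theorem det_lower (hz : St_zip) (hm : St_mach) (hn : 1 ≤ n) (hd : M.Deterministic)
    (hL : M.language strict = (Mn n).language strict) :
    2 ^ (2 ^ n) ≤ (Nat.card M.Q + 1) ^ ((Lft M).ncard + 1) := by
  classical
  have hfin := M.finQ
  have hlang := mem_lang (strict := strict) (M := M) hz hm hn hL
  let F : Finset (Vx n) → Option ((Lft M → Option M.Q) × M.Q) := fun S =>
    (stateOf strict M (cod (codeX n) (wa S))).map fn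
  have hone : ∀ S S' T : Finset (Vx n), F S = F S' → (S ∩ T).Nonempty → (S' ∩ T).Nonempty := by
    intro S S' T hF hST
    rw [← live_wab', ← hlang, mem_language_runs, cod_append] at hST ⊢
    obtain ⟨z, h1, h2⟩ := hST
    rw [runs_append] at h1
    obtain ⟨y, h3, h4⟩ := h1
    have h5 := (stateOf_eq hd _ _).2 h3
    have h6 : F S = some (fn y) := by
      show Option.map _ _ = _
      rw [h5]
      rfl
    rw [h6] at hF
    obtain ⟨y', h7, h8⟩ := Option.map_eq_some_iff.1 hF.symm
    have h9 := (stateOf_eq hd _ _).1 h7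
    have hy := runs_FT hd _ _ _ (x0_FT hd) h3
    have hy' := runs_FT hd _ _ _ (x0_FT hd) h9
    have h10 : res y = res y' := by
      have h11' : (fn y').2 = (fn y).2 := congrArg Prod.snd h8
      have h11 : y'.2 = y.2 := h11'
      refine Prod.ext ?_ h11.symm
      ext ⟨q, s⟩
      show (q.1, s) ∈ y.1 ↔ (q.1, s) ∈ y'.1
      rw [← fn_iff hy, ← fn_iff hy', h8]
    refine ⟨z, (runs_append _ _ _ _).2 ⟨y', h9, runs_res ?_ h10 h4⟩, h2⟩
    rw [wb, cod_cons]
    intro h
    exact codeX_ne n _ (List.append_eq_nil_iff.1 h).1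
  have hinj : Function.Injective F := by
    intro S S' h
    ext x
    constructor
    · intro hx
      obtain ⟨y, hy⟩ := hone S S' {x} h ⟨x, by simp [hx]⟩
      simp only [Finset.mem_inter, Finset.mem_singleton] at hy
      rw [← hy.2]
      exact hy.1
    · intro hx
      obtain ⟨y, hy⟩ := hone S' S {x} h.symm ⟨x, by simp [hx]⟩
      simp only [Finset.mem_inter, Finset.mem_singleton] at hy
      rw [← hy.2]
      exact hy.1
  have h1 := Nat.card_le_card_of_injective _ hinj
  rw [Finite.card_option, Nat.card_prod, Nat.card_fun, Finite.card_option,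
    Nat.card_coe_set_eq, Nat.card_eq_fintype_card (α := Finset (Vx n)), Fintype.card_finset] at h1
  have h5 : Fintype.card (Vx n) = 2 ^ n := by simp [Vx]
  rw [h5] at h1
  refine h1.trans ?_
  rw [pow_succ, Nat.mul_add, Nat.mul_one]
  have : 1 ≤ (Nat.card M.Q + 1) ^ (Lft M).ncard := Nat.one_le_pow _ _ (Nat.succ_pos _)
  omega

theorem amb_of_det {A : Type} (strict : Prop) (M : LimAut A) (hd : M.Deterministic) :
    AmbiguityLE strict 1 M := by
  intro w T f hf
  obtain ⟨h1, h2⟩ := unamb_of_det strict M hd w _ _ _ _ (hf 0) (hf 1)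
  exact ⟨0, 1, by decide, h1, h2⟩

end lower

end Pool.Agent.NH88.FA
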