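import Mathlib
import Pool.Agent.NH88.FA.Seq

set_option autoImplicit false

/-!
1-limited automata of subexponential ambiguity.
-/

namespace Pool.Agent.NH88.FA

open Relation Pool.Agent.H630R2.LA Pool.Agent.R620.KV

/-- `M` has at most `m` accepting computations on the word `w`: among any `m + 1` of them two are
equal. -/
def AccLE (strict : Prop) {A : Type} (M : LimAut A) (w : List A) (m : ℕ) : Prop :=
  ∀ (T : Fin (m + 1) → ℕ) (f : Fin (m + 1) → ℕ → Cfg M),
    (∀ i, IsAcc strict M w (T i) (f i)) →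
    ∃ i j, i ≠ j ∧ T i = T j ∧ ∀ t, t ≤ T i → f i t = f j t

/-- The ambiguity of `M` is subexponential: for every `c`, on all long enough words `w` there are at
most `2 ^ (|w| / c)` accepting computations. -/
def Subexp (strict : Prop) {A : Type} (M : LimAut A) : Prop :=
  ∀ c : ℕ, ∃ N : ℕ, ∀ w : List A, N ≤ w.length → ∃ m, AccLE strict M w m ∧ m ^ c ≤ 2 ^ w.length

/-- Polynomial ambiguity is subexponential. -/
theorem subexp_of_poly {A : Type} (strict : Prop) (M : LimAut A) (C k : ℕ)
    (h : ∀ w, AccLE strict M w (C * (w.length + 1) ^ k)) : Subexp strict M := by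
  intro c
  have h1 : ∀ᶠ n : ℕ in Filter.atTop, ((C * n ^ k) ^ c : ℕ) * 2 ≤ 2 ^ n := by
    have h2 := isLittleO_pow_const_const_pow_of_one_lt (R := ℝ) (k * c) (r := 2) (by norm_num)
    have h3 := h2.bound (c := 1 / (2 * ((C : ℝ) ^ c + 1))) (by positivity)
    filter_upwards [h3] with n hn
    rw [Real.norm_of_nonneg (by positivity), Real.norm_of_nonneg (by positivity)] at hn
    have h4 : (0 : ℝ) < 2 * ((C : ℝ) ^ c + 1) := by positivity
    rw [div_mul_eq_mul_div, one_mul, le_div_iff₀ h4] at hn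
    have h5 : (((C * n ^ k) ^ c : ℕ) : ℝ) * 2 ≤ (2 : ℝ) ^ n := by
      refine le_trans ?_ hn
      push_cast
      rw [mul_pow, ← pow_mul]
      have h6 : (0 : ℝ) ≤ (n : ℝ) ^ (k * c) := by positivity
      nlinarith
    exact_mod_cast h5
  obtain ⟨N, hN⟩ := Filter.eventually_atTop.1 h1
  refine ⟨N, fun w hw => ⟨_, h w, ?_⟩⟩
  have h2 := hN (w.length + 1) (by omega)
  rw [pow_succ] at h2
  omega

section seqs

variable {A α : Type} {strict : Prop} {M : LimAut A} {κ : α → List A}

theorem seqs_acc2 (hκ : ∀ X, κ X ≠ []) {e e' : EE M} (he : Reach strict M κ e)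
    (he' : CoReach strict M κ e') : ∃ u v : List α, ∀ x l, Seqs strict M κ x e l e' →
      ∃ T f, IsAcc strict M (cod κ (u ++ x ++ v)) T f ∧
        Pas strict M κ (Vis T f) (cod κ (u ++ x ++ v)) x (cod κ u).length l := by
  obtain ⟨u, y0, h1, h2⟩ := he
  obtain ⟨v, h3⟩ := coReach_any he'
  refine ⟨u, v, fun x l hl => ?_⟩
  set w := cod κ (u ++ x ++ v) with hw
  have hw1 : w = cod κ u ++ cod κ x ++ cod κ v := by rw [hw, cod_append, cod_append]
  obtain ⟨c0, h4, h5⟩ := at_runs (cod κ u) [] (cod κ x ++ cod κ v) w (by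
    rw [hw1]; simp only [List.nil_append, List.append_assoc]) y0 (x0 strict M) (init M w)
    (at_init w) h2
  have h4' : At strict M w (cod κ u).length y0 c0 := by
    simpa using h4
  obtain ⟨y', c', V, h6, h7, h8, h9⟩ := seqs_comp hκ x (cod κ u) (cod κ v) w hw1 e l e' y0 c0 h1
    h4' hl
  obtain ⟨z, h10, h11⟩ := h3 y' h6
  obtain ⟨c1, h12, h13⟩ := at_runs (cod κ v) (cod κ u ++ cod κ x) [] w (by
    rw [hw1, List.append_nil]) z y' c' (by rw [List.length_append]; exact h7) h10
  obtain ⟨c2, h14, h15, h16⟩ := at_fin (w := w) (y := z) (c := c1) (by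
    have : w.length = (cod κ u ++ cod κ x).length + (cod κ v).length := by
      rw [hw1, List.length_append]
    rw [this]
    exact h12) h11
  obtain ⟨n, f, f1, f2, f3, f4⟩ := ((Pth.of h5).trans h8).trans (Pth.of (h13.trans h14))
  refine ⟨n, f, ⟨⟨f1, f3⟩, by rw [f2]; exact h15, by rw [f2]; exact h16⟩, ?_⟩
  refine Pas.mono ?_ _ _ _ h9
  intro c hc
  exact f4 c (Or.inl (Or.inr hc))

variable [Fintype (EE M)] [DecidableEq (EE M)]

theorem ph_le_acc (hκ : ∀ X, κ X ≠ []) {e e' : EE M} (he : Reach strict M κ e)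
    (he' : CoReach strict M κ e') : ∃ u v : List α, ∀ x m,
      AccLE strict M (cod κ (u ++ x ++ v)) m → ph strict M κ x e e' ≤ m := by
  classical
  obtain ⟨u, v, h3⟩ := seqs_acc2 hκ he he'
  refine ⟨u, v, fun x m ha => ?_⟩
  obtain ⟨F, hF1, hF2⟩ := ph_count (strict := strict) (κ := κ) x e e'
  by_contra hcon
  have hcard : m + 1 ≤ F.card := by omega
  obtain ⟨G, hG1, hG2⟩ := Finset.exists_subset_card_eq hcard
  let g : Fin (m + 1) ≃ G := (finCongr hG2.symm).trans G.equivFin.symm
  have hg : ∀ i, ∃ T f, IsAcc strict M (cod κ (u ++ x ++ v)) T f ∧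
      Pas strict M κ (Vis T f) (cod κ (u ++ x ++ v)) x (cod κ u).length (g i).1 :=
    fun i => h3 _ _ (hF2 _ (hG1 (g i).2))
  choose T f h4 h5 using hg
  obtain ⟨i, j, h6, h7, h8⟩ := ha T f h4
  have h9 : Vis (T j) (f j) = Vis (T i) (f i) := by
    ext c
    constructor
    · rintro ⟨t, ht, rfl⟩
      exact ⟨t, by omega, h8 t (by omega)⟩
    · rintro ⟨t, ht, rfl⟩
      exact ⟨t, by omega, (h8 t ht).symm⟩
  have h10 := h5 j
  rw [h9] at h10
  have h11 := Pas.unique (h4 i).toIsComp x _ _ _ (h5 i) h10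
  exact h6 (g.injective (Subtype.ext h11))

/-- The `k`-th power of a word. -/
def pwr (k : ℕ) (x : List α) : List α := (List.replicate k x).flatten

theorem pwr_succ (k : ℕ) (x : List α) : pwr (k + 1) x = x ++ pwr k x := by
  unfold pwr
  rw [List.replicate_succ, List.flatten_cons]

theorem ph_pwr (k : ℕ) (x : List α) (e : EE M) :
    (ph strict M κ x e e) ^ k ≤ ph strict M κ (pwr k x) e e := by
  induction k with
  | zero =>
    show _ ≤ ph strict M κ [] e e
    rw [ph_nil, Matrix.one_apply_eq, pow_zero]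
  | succ k ih =>
    rw [pwr_succ, ph_append, Matrix.mul_apply, pow_succ, Nat.mul_comm]
    exact (Nat.mul_le_mul_left _ ih).trans (Finset.single_le_sum
      (f := fun i => ph strict M κ x e i * ph strict M κ (pwr k x) i e)
      (fun _ _ => Nat.zero_le _) (Finset.mem_univ e))

theorem length_cod_pwr (k : ℕ) (x : List α) :
    (cod κ (pwr k x)).length = k * (cod κ x).length := by
  induction k with
  | zero => simp [pwr, cod]
  | succ k ih =>
    rw [pwr_succ, cod_append, List.length_append, ih]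
    ring

theorem ph_diag (hκ : ∀ X, κ X ≠ []) (ha : Subexp strict M) (x : List α) (e : EE M) :
    ph strict M κ x e e ≤ 1 := by
  by_contra hcon
  have hx : x ≠ [] := by
    rintro rfl
    rw [ph_nil, Matrix.one_apply_eq] at hcon
    exact hcon le_rfl
  obtain ⟨F, hF1, hF2⟩ := ph_count (strict := strict) (κ := κ) x e e
  obtain ⟨l0, hl0⟩ : F.Nonempty := Finset.card_pos.1 (by omega)
  obtain ⟨h1, h2⟩ := seqs_tr x hx (hF2 l0 hl0)
  obtain ⟨u, v, h3⟩ := ph_le_acc hκ h1 h2
  have hc1 : 1 ≤ (cod κ x).length := by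
    obtain ⟨X, y, rfl⟩ := List.exists_cons_of_ne_nil hx
    rw [cod_cons, List.length_append]
    have := List.length_pos_iff.2 (hκ X)
    omega
  obtain ⟨N, hN⟩ := ha ((cod κ x).length + 1)
  set c0 := (cod κ u).length + (cod κ v).length with hc0
  set k := N + c0 + 1 with hk
  have hlen : (cod κ (u ++ pwr k x ++ v)).length = c0 + k * (cod κ x).length := by
    rw [cod_append, cod_append, List.length_append, List.length_append, length_cod_pwr, hc0]
    ring
  have hkle : k ≤ k * (cod κ x).length := Nat.le_mul_of_pos_right _ hc1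
  obtain ⟨m, hm1, hm2⟩ := hN (cod κ (u ++ pwr k x ++ v)) (by rw [hlen]; omega)
  have h4 : 2 ^ k ≤ m := by
    refine le_trans ?_ (h3 _ _ hm1)
    refine le_trans ?_ (ph_pwr k x e)
    exact Nat.pow_le_pow_left (by omega) k
  have h5 : 2 ^ (k * ((cod κ x).length + 1)) ≤ 2 ^ (c0 + k * (cod κ x).length) := by
    rw [← hlen, pow_mul]
    exact (Nat.pow_le_pow_left h4 _).trans hm2
  have h6 := (Nat.pow_le_pow_iff_right (by norm_num)).1 h5
  rw [Nat.mul_add, Nat.mul_one] at h6
  omega

end seqs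

end Pool.Agent.NH88.FA
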