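import Mathlib
import Pool.Agent.NH88.FA.Stm

set_option autoImplicit false

/-!
Statements for project FA, part 2 (MP_0036f5_lc, helper88): 1-limited automata of subexponential
ambiguity. Families of matrices of natural numbers whose diagonal entries are at most `1`.
-/

namespace Pool.Agent.NH88.FA

/-- Some word leads from `e` to `e'`. -/
def Rch {E α : Type} (φ : List α → Matrix E E ℕ) (e e' : E) : Prop := ∃ x, φ x e e' ≠ 0

/-- `e` and `e'` are in the same component. -/
def SameC {E α : Type} (φ : List α → Matrix E E ℕ) (e e' : E) : Prop := Rch φ e e' ∧ Rch φ e' e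

open Classical in
/-- The part of the matrix in the component of `e`. -/
noncomputable def phC {E α : Type} (φ : List α → Matrix E E ℕ) (e : E) (x : List α) :
    Matrix E E ℕ := Matrix.of fun i j => if SameC φ e i ∧ SameC φ e j then φ x i j else 0

/-- FA-CMU.  `Rch` is transitive (`φ (x ++ y) i j ≥ φ x i k * φ y k j`); for `i`, `j` in the component of
`e` the terms `φ x i k * φ y k j ≠ 0` have `e → i → k → j → e`, so `k` is in the component. -/
def S_CMU : Prop :=
  ∀ (E α : Type) [Fintype E] [DecidableEq E] (φ : List α → Matrix E E ℕ),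
    (∀ x y, φ (x ++ y) = φ x * φ y) → φ [] = 1 →
    ∀ (e : E) (x y : List α), phC φ e (x ++ y) = phC φ e x * phC φ e y

/-- FA-CLE.  If `φ x i j ≥ 2` and `i`, `j` are in the component of `e` then `Rch φ j i`, `φ y j i ≥ 1`, and
`φ (x ++ y) i i ≥ φ x i j * φ y j i ≥ 2`. -/
def S_CLE : Prop :=
  ∀ (E α : Type) [Fintype E] [DecidableEq E] (φ : List α → Matrix E E ℕ),
    (∀ x y, φ (x ++ y) = φ x * φ y) → φ [] = 1 → (∀ x e, φ x e e ≤ 1) →
    ∀ (e : E) (x : List α) (i j : E), phC φ e x i j ≤ 1

/-- FA-NIL.  Otherwise there are `Full` words `x e` with `phC φ e (x e) = 0`. Let `W` be the concatenation of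
all the `x e` (`E` is not empty since `φ x ≠ 0` for `Full x`); `W` is `Full` and `phC φ e W = 0` for all `e`
(by S_CMU, one factor is zero). So `φ W i j ≠ 0` implies `Rch φ i j` and not `Rch φ j i` (`i` and `j` are
in the component of `i` otherwise; `Rch φ i i` by `φ [] = 1`), and with
`ρ i = #{k | Rch φ i k}` one has `ρ j < ρ i`. By induction `(φ W ^ k) i j ≠ 0` implies `ρ j + k ≤ ρ i`, so
`φ W ^ (card E + 1) = 0`; but it is `φ` of the `Full` word `W ++ ... ++ W`. -/
def S_NIL : Prop :=
  ∀ (E α : Type) [Fintype E] [DecidableEq E] (φ : List α → Matrix E E ℕ) (Full : List α → Prop),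
    (∀ x y, φ (x ++ y) = φ x * φ y) → φ [] = 1 →
    (∀ x y, Full x → Full y → Full (x ++ y)) → (∃ x, Full x) → (∀ x, Full x → φ x ≠ 0) →
    ∃ e, ∀ x, Full x → phC φ e x ≠ 0

/-- FA-POL.  Take `e` from S_NIL; S_MAT for `phC φ e` (S_CMU, S_CLE with `a = 1`) gives `v`, `u`, `r`; replace
`v` and `u` by their restrictions to the component of `e`. -/
def S_POL : Prop :=
  ∀ (E α : Type) [Fintype E] [DecidableEq E] (φ : List α → Matrix E E ℕ) (Full : List α → Prop),
    (∀ x y, φ (x ++ y) = φ x * φ y) → φ [] = 1 → (∀ x e, φ x e e ≤ 1) →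
    (∀ x y, Full x → Full y → Full (x ++ y)) → (∃ x, Full x) → (∀ x, Full x → φ x ≠ 0) →
    ∃ (v u : E → ℕ) (r : ℕ), 1 ≤ r ∧ ∀ z, Full z → ∑ i, ∑ j, v i * φ z i j * u j = r

end Pool.Agent.NH88.FA
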