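import Mathlib
import Pool.Agent.NH88.FA.Fin
import Pool.Agent.NH88.FA.Seq2
import Pool.Agent.NH88.FA.Stm2

set_option autoImplicit false

/-!
Lower bound for 1-limited automata of subexponential ambiguity.
-/

namespace Pool.Agent.NH88.FA

open Relation Pool.Agent.H630R2.LA Pool.Agent.R620.KV Pool.Agent.NH19.LA

theorem sub_lower {n : ℕ} {strict : Prop} {M : LimAut (Ltr n)} (hPOL : S_POL) (hz : St_zip)
    (hm : St_mach) (hn : 1 ≤ n) (ha : Subexp strict M)
    (hL : M.language strict = (Mn n).language strict) :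
    2 ^ (2 ^ n) ≤ Nat.card M.Q * 2 ^ ((Lft M).ncard * Nat.card M.Q) + 1 := by
  classical
  have hfin := M.finQ
  let _ : Fintype (EE M) := Fintype.ofFinite _
  have hκ : ∀ X, codeX n X ≠ [] := codeX_ne n
  have hlang := mem_lang (strict := strict) (M := M) hz hm hn hL
  obtain ⟨v, u, r, hr, hv⟩ := hPOL (EE M) (Finset (Vx n × Vx n)) (ph strict M (codeX n)) Full
    ph_append ph_nil (ph_diag hκ ha) (fun x y hx hy => full_append hx hy) ⟨_, full_univ⟩ (by
      intro x hx
      apply ph_ne
      rw [hlang]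
      exact ⟨fun _ => false, fun _ => false, hx _ _⟩)
  have hr0 : (r : ℚ) ≠ 0 := by
    have : r ≠ 0 := by omega
    exact_mod_cast this
  have key := rank_bound (V := Vx n) (E := EE M)
    (fun S e => ((∑ i, v i * ph strict M (codeX n) (wa S) i e : ℕ) : ℚ) / r)
    (fun T e => ((∑ j, ph strict M (codeX n) (wb T) e j * u j : ℕ) : ℚ)) (by
    intro S T
    have h1 : ∀ e, ((∑ i, v i * ph strict M (codeX n) (wa S) i e : ℕ) : ℚ) / r *
        ((∑ j, ph strict M (codeX n) (wb T) e j * u j : ℕ) : ℚ) =
        (((∑ i, v i * ph strict M (codeX n) (wa S) i e) *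
          (∑ j, ph strict M (codeX n) (wb T) e j * u j) : ℕ) : ℚ) / r := by
      intro e
      push_cast
      ring
    simp only [h1]
    rw [← Finset.sum_div, ← Nat.cast_sum, bilin, ← ph_append]
    by_cases hST : (S ∩ T).Nonempty
    · rw [if_pos hST, hv _ (full_wab hST), div_self hr0]
    · rw [if_neg hST]
      have h2 : ph strict M (codeX n) (wa S ++ wb T) = 0 := by
        apply ph_zero hκ _ (by simp [wa])
        intro x y hxy
        rw [hlang] at hxy
        exact hST ((live_wab' S T).1 (live_right (live_left hxy)))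
      rw [h2]
      simp)
  have h3 : Fintype.card (EE M) = Nat.card M.Q * 2 ^ ((Lft M).ncard * Nat.card M.Q) := by
    rw [← Nat.card_eq_fintype_card, Nat.card_prod, Nat.mul_comm]
    congr 1
    have h4 : Nat.card (Set (Lft M × M.Q)) = Nat.card ((Lft M × M.Q) → Prop) := rfl
    rw [h4, Nat.card_fun, Nat.card_prod, Nat.card_coe_set_eq]
    simp
  have h5 : Fintype.card (Vx n) = 2 ^ n := by simp [Vx]
  rw [h3, h5] at key
  exact key

theorem accLE_of_det {A : Type} (strict : Prop) (M : LimAut A) (hd : M.Deterministic)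
    (w : List A) : AccLE strict M w 1 := by
  intro T f hf
  obtain ⟨h1, h2⟩ := unamb_of_det strict M hd w _ _ _ _ (hf 0) (hf 1)
  exact ⟨0, 1, by decide, h1, h2⟩

end Pool.Agent.NH88.FA
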