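import Pool.Agent.NH88.FA.Stm

set_option autoImplicit false
set_option linter.unusedSectionVars false

/-!
Idempotent matrices over the natural numbers.
-/

namespace Pool.Agent.NH88.FA

namespace Idem

open Finset

variable {E : Type} [Fintype E] [DecidableEq E] {P : Matrix E E ℕ}

lemma expand (hP : P * P = P) (x y : E) : P x y = ∑ k, P x k * P k y := by
  conv_lhs => rw [← hP]
  rw [Matrix.mul_apply]

lemma term_le (hP : P * P = P) (x k y : E) : P x k * P k y ≤ P x y := by
  rw [expand hP x y]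
  exact single_le_sum (f := fun k => P x k * P k y) (fun _ _ => Nat.zero_le _) (mem_univ k)

lemma two_le (hP : P * P = P) (x y : E) {k l : E} (hkl : k ≠ l) :
    P x k * P k y + P x l * P l y ≤ P x y := by
  rw [expand hP x y, ← sum_pair (f := fun k => P x k * P k y) hkl]
  exact sum_le_sum_of_subset (subset_univ _)

lemma trans' (hP : P * P = P) {x y z : E} (h1 : P x y ≠ 0) (h2 : P y z ≠ 0) : P x z ≠ 0 := by
  have h3 := term_le hP x y z
  have h4 : 0 < P x y * P y z := Nat.mul_pos (Nat.pos_of_ne_zero h1) (Nat.pos_of_ne_zero h2)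
  omega

lemma mid (hP : P * P = P) {x y : E} (h : P x y ≠ 0) : ∃ m, P x m ≠ 0 ∧ P m y ≠ 0 := by
  by_contra hcon
  push Not at hcon
  apply h
  rw [expand hP x y]
  refine sum_eq_zero fun k _ => ?_
  by_cases hk : P x k = 0
  · rw [hk, zero_mul]
  · rw [hcon k hk, mul_zero]

lemma diag_le (hP : P * P = P) (i : E) : P i i ≤ 1 := by
  by_contra h
  push Not at h
  have h1 := term_le hP i i i
  nlinarith

lemma off (hP : P * P = P) {i j : E} (hij : i ≠ j) (hi : P i i ≠ 0) (hj : P j j ≠ 0) :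
    P i j = 0 := by
  have h1 := two_le hP i j hij
  have h2 : P i j ≤ P i i * P i j := Nat.le_mul_of_pos_left _ (Nat.pos_of_ne_zero hi)
  have h3 : P i j ≤ P i j * P j j := Nat.le_mul_of_pos_right _ (Nat.pos_of_ne_zero hj)
  omega

lemma key (hP : P * P = P) (x : E) (N : ℕ) : ∀ y : E, P x y ≠ 0 →
    (univ.filter fun t => P x t ≠ 0 ∧ P t y ≠ 0).card ≤ N →
    ∃ i, P i i ≠ 0 ∧ P x i ≠ 0 ∧ P i y ≠ 0 := by
  induction N with
  | zero =>
    intro y h hc
    obtain ⟨m, h1, h2⟩ := mid hP h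
    have h3 : m ∈ univ.filter fun t => P x t ≠ 0 ∧ P t y ≠ 0 := by
      rw [mem_filter]; exact ⟨mem_univ _, h1, h2⟩
    rw [card_eq_zero.1 (Nat.le_zero.1 hc)] at h3
    exact absurd h3 (notMem_empty m)
  | succ N ih =>
    intro y h hc
    obtain ⟨m, h1, h2⟩ := mid hP h
    by_cases hm : P m m = 0
    · have hlt : (univ.filter fun t => P x t ≠ 0 ∧ P t m ≠ 0).card <
          (univ.filter fun t => P x t ≠ 0 ∧ P t y ≠ 0).card := by
        refine card_lt_card ?_
        rw [ssubset_iff_subset_ne]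
        refine ⟨fun t ht => ?_, fun heq => ?_⟩
        · rw [mem_filter] at ht ⊢
          exact ⟨ht.1, ht.2.1, trans' hP ht.2.2 h2⟩
        · have h3 : m ∈ univ.filter fun t => P x t ≠ 0 ∧ P t y ≠ 0 := by
            rw [mem_filter]; exact ⟨mem_univ _, h1, h2⟩
          rw [← heq, mem_filter] at h3
          exact h3.2.2 hm
      obtain ⟨i, hi, h3, h4⟩ := ih m h1 (by omega)
      exact ⟨i, hi, h3, trans' hP h4 h2⟩
    · exact ⟨m, hm, h1, h2⟩

lemma zero_of (hP : P * P = P) {k : E} (hk : P k k = 0) (x y : E) : P x k * P k y = 0 := by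
  by_contra h
  have h1 : P x k ≠ 0 := left_ne_zero_of_mul h
  have h2 : P k y ≠ 0 := right_ne_zero_of_mul h
  obtain ⟨i, hi, -, hik⟩ := key hP x _ k h1 le_rfl
  obtain ⟨j, hj, hkj, -⟩ := key hP k _ y h2 le_rfl
  by_cases hij : i = j
  · subst hij
    have hne : i ≠ k := by
      rintro rfl
      exact hi hk
    have h3 := two_le hP i i hne
    have h4 := diag_le hP i
    have h5 : 0 < P i i := Nat.pos_of_ne_zero hi
    have h6 : 0 < P i k * P k i :=
      Nat.mul_pos (Nat.pos_of_ne_zero hik) (Nat.pos_of_ne_zero hkj)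
    have h7 : P i i = 1 := by omega
    rw [h7] at h3
    omega
  · exact trans' hP hik hkj (off hP hij hi hj)

end Idem

theorem t_IDEM : S_IDEM := by
  intro E _ _ P hP
  refine ⟨Idem.diag_le hP, fun i j hij hi hj => Idem.off hP hij hi hj, ?_⟩
  ext x y
  rw [Matrix.mul_apply, Idem.expand hP x y]
  refine Finset.sum_congr rfl fun k _ => ?_
  rw [Matrix.mul_diagonal]
  by_cases hk : P k k = 0
  · rw [if_pos hk, mul_zero, zero_mul, Idem.zero_of hP hk]
  · rw [if_neg hk, mul_one]

end Pool.Agent.NH88.FA
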