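import Pool.Agent.NH88.FA.Stm

/-!
Project FA, assembly of the matrix lemma.
-/

set_option autoImplicit false

namespace Pool.Agent.NH88.FA

open Matrix Finset

namespace MatA

/-- the concatenation of `k + 1` copies of `x` -/
def rep {α : Type} (x : List α) : ℕ → List α
  | 0 => x
  | k + 1 => rep x k ++ x

lemma rep_full {α : Type} {Full : List α → Prop} (h : ∀ x y, Full x → Full y → Full (x ++ y))
    {x : List α} (hx : Full x) (k : ℕ) : Full (rep x k) := by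
  induction k with
  | zero => exact hx
  | succ k ih => exact h _ _ ih hx

lemma rep_phi {E α : Type} [Fintype E] [DecidableEq E] {φ : List α → Matrix E E ℕ}
    (h : ∀ x y, φ (x ++ y) = φ x * φ y) (x : List α) (k : ℕ) : φ (rep x k) = φ x ^ (k + 1) := by
  induction k with
  | zero => simp [rep]
  | succ k ih => rw [rep, h, ih, ← pow_succ]

lemma exists_idem (hW : S_POW) {E α : Type} [Fintype E] [DecidableEq E]
    {φ : List α → Matrix E E ℕ} {Full : List α → Prop} {a : ℕ}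
    (h1 : ∀ x y, φ (x ++ y) = φ x * φ y) (h2 : ∀ x i j, φ x i j ≤ a)
    (h3 : ∀ x y, Full x → Full y → Full (x ++ y)) {x : List α} (hx : Full x) :
    ∃ (q : List α) (k : ℕ), 1 ≤ k ∧ Full q ∧ φ q = φ x ^ k ∧ φ q * φ q = φ q := by
  obtain ⟨k, hk, hk2⟩ := hW E (φ x) a (by
    intro k hk i j
    obtain ⟨l, rfl⟩ : ∃ l, k = l + 1 := ⟨k - 1, by omega⟩
    rw [← rep_phi h1]
    exact h2 _ _ _)
  obtain ⟨l, rfl⟩ : ∃ l, k = l + 1 := ⟨k - 1, by omega⟩
  exact ⟨rep x l, l + 1, hk, rep_full h3 hx l, rep_phi h1 x l, by rw [rep_phi h1]; exact hk2⟩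

lemma double_sum {E : Type} [Fintype E] [DecidableEq E] (P Z : Matrix E E ℕ) (I : Finset E) :
    ∑ i, ∑ j, (∑ s ∈ I, P s i) * Z i j * (∑ t ∈ I, P j t) =
      ∑ s ∈ I, ∑ t ∈ I, (P * Z * P) s t := by
  have e1 : ∀ i j, (∑ s ∈ I, P s i) * Z i j * (∑ t ∈ I, P j t) =
      ∑ s ∈ I, ∑ t ∈ I, P s i * Z i j * P j t := by
    intro i j
    rw [Finset.sum_mul, Finset.sum_mul]
    refine Finset.sum_congr rfl fun s _ => ?_
    rw [Finset.mul_sum]
  have e2 : ∀ s t, (P * Z * P) s t = ∑ i, ∑ j, P s i * Z i j * P j t := by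
    intro s t
    rw [Matrix.mul_apply, Finset.sum_comm]
    refine Finset.sum_congr rfl fun j _ => ?_
    rw [Matrix.mul_apply, Finset.sum_mul]
  calc ∑ i, ∑ j, (∑ s ∈ I, P s i) * Z i j * (∑ t ∈ I, P j t)
      = ∑ i, ∑ j, ∑ s ∈ I, ∑ t ∈ I, P s i * Z i j * P j t := by simp only [e1]
    _ = ∑ i, ∑ s ∈ I, ∑ t ∈ I, ∑ j, P s i * Z i j * P j t := by
        refine Finset.sum_congr rfl fun i _ => ?_
        rw [Finset.sum_comm]
        refine Finset.sum_congr rfl fun s _ => ?_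
        rw [Finset.sum_comm]
    _ = ∑ s ∈ I, ∑ t ∈ I, ∑ i, ∑ j, P s i * Z i j * P j t := by
        rw [Finset.sum_comm]
        refine Finset.sum_congr rfl fun s _ => ?_
        rw [Finset.sum_comm]
    _ = ∑ s ∈ I, ∑ t ∈ I, (P * Z * P) s t := by simp only [e2]

end MatA

theorem t_MAT (hI : S_IDEM) (hW : S_POW) (hT : S_TR) (hR : S_PERM) : S_MAT := by
  intro E α _ _ φ Full a h1 h2 h3 h4 h5
  classical
  obtain ⟨x0, hx0⟩ := h4
  have hex : ∃ n : ℕ, ∃ p, Full p ∧ φ p * φ p = φ p ∧ (φ p).trace = n := by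
    obtain ⟨q, k, -, hq, -, hi⟩ := MatA.exists_idem hW h1 h2 h3 hx0
    exact ⟨_, q, hq, hi, rfl⟩
  obtain ⟨p, hp, hpi, hpt⟩ := Nat.find_spec hex
  have hmin : ∀ q, Full q → φ q * φ q = φ q → (φ p).trace ≤ (φ q).trace := by
    intro q hq hqi
    rw [hpt]
    exact Nat.find_min' hex ⟨q, hq, hqi, rfl⟩
  refine ⟨fun j => ∑ i ∈ univ.filter (fun i => φ p i i ≠ 0), φ p i j,
    fun j => ∑ i ∈ univ.filter (fun i => φ p i i ≠ 0), φ p j i, (φ p).trace, ?_, ?_⟩
  · by_contra hc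
    have h0 : (φ p).trace = 0 := by omega
    have h6 : ∀ i, φ p i i = 0 := by
      intro i
      exact (Finset.sum_eq_zero_iff.mp h0) i (mem_univ i)
    obtain ⟨-, -, h7⟩ := hI E (φ p) hpi
    apply h5 p hp
    have h8 : (fun i => if φ p i i = 0 then 0 else 1) = (0 : E → ℕ) := by
      funext i
      simp [h6 i]
    rw [← h7, h8]
    simp
  · intro z hz
    have hF : Full (p ++ (z ++ p)) := h3 _ _ hp (h3 _ _ hz hp)
    have hH : φ (p ++ (z ++ p)) = φ p * φ z * φ p := by rw [h1, h1, Matrix.mul_assoc]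
    obtain ⟨q, k, hk, hq, hqk, hqi⟩ := MatA.exists_idem hW h1 h2 h3 hF
    rw [hH] at hqk
    have hPH : φ p * (φ p * φ z * φ p) = φ p * φ z * φ p := by
      rw [← Matrix.mul_assoc, ← Matrix.mul_assoc, hpi]
    have hHP : (φ p * φ z * φ p) * φ p = φ p * φ z * φ p := by
      rw [Matrix.mul_assoc (φ p * φ z), hpi]
    obtain ⟨l, rfl⟩ : ∃ l, k = l + 1 := ⟨k - 1, by omega⟩
    have hPQ : φ p * φ q = φ q := by
      rw [hqk, pow_succ', ← Matrix.mul_assoc, hPH]
    have hQP : φ q * φ p = φ q := by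
      rw [hqk, pow_succ, Matrix.mul_assoc, hHP]
    have hQ : φ q = φ p := hT E (φ p) (φ q) hpi hqi hPQ hQP (by
      have h9 := hmin q hq hqi
      exact h9)
    have h8 := hR E (φ p) (φ p * φ z * φ p) (l + 1) hpi hPH hHP hk (by rw [← hqk, hQ])
    rw [← h8]
    exact MatA.double_sum (φ p) (φ z) _

end Pool.Agent.NH88.FA
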