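import Pool.Agent.NH88.FA.Stm

set_option autoImplicit false

/-!
Project FA, part PERM: a root of an idempotent matrix over the natural numbers is, on the diagonal
block, a permutation matrix.
-/

namespace Pool.Agent.NH88.FA

namespace Perm

variable {E : Type} [Fintype E] [DecidableEq E]

theorem mid (P D A B : Matrix E E ℕ) (hD : P * D * P = P) (hA : A * P = A) (hB : P * B = B) :
    A * D * B = A * B := by
  calc A * D * B = (A * P) * D * (P * B) := by rw [hA, hB]
    _ = A * (P * D * P) * B := by simp only [Matrix.mul_assoc]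
    _ = A * P * B := by rw [hD]
    _ = A * B := by rw [hA]

end Perm

/-- FA-PERM -/
theorem t_PERM (hI : S_IDEM) : S_PERM := by
  intro E _ _ P H k hP hPH hHP hk hHk
  obtain ⟨h1, h2, h3⟩ := hI E P hP
  obtain ⟨m, rfl⟩ : ∃ m, k = m + 1 := ⟨k - 1, by omega⟩
  set d : E → ℕ := fun i => if P i i = 0 then 0 else 1 with hd
  set D : Matrix E E ℕ := Matrix.diagonal d with hDdef
  have hdd : ∀ i, d i * d i = d i := by
    intro i
    simp only [hd]
    split_ifs <;> rfl
  have hDD : D * D = D := by
    rw [hDdef, Matrix.diagonal_mul_diagonal]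
    congr 1
    funext i
    exact hdd i
  have hent : ∀ (A : Matrix E E ℕ) (i j : E), (D * A * D) i j = d i * A i j * d j := by
    intro A i j
    rw [hDdef, Matrix.mul_diagonal, Matrix.diagonal_mul]
  have hDPD : D * P * D = D := by
    ext i j
    rw [hent, hDdef, Matrix.diagonal_apply]
    by_cases hij : i = j
    · subst hij
      rw [if_pos rfl]
      have h4 := h1 i
      simp only [hd]
      split_ifs with h5
      · simp
      · have : P i i = 1 := by omega
        rw [this]
    · rw [if_neg hij]
      simp only [hd]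
      by_cases hi : P i i = 0
      · simp [hi]
      by_cases hj : P j j = 0
      · simp [hj]
      rw [h2 i j hij hi hj]
      simp
  have hcomm : Commute P H := by
    show P * H = H * P
    rw [hPH, hHP]
  have hcm : P * H ^ m = H ^ m * P := hcomm.pow_right m
  set K : Matrix E E ℕ := H ^ m * P with hK
  have hPK : P * K = K := by
    rw [hK, ← Matrix.mul_assoc, hcm, Matrix.mul_assoc, hP]
  have hKP : K * P = K := by
    rw [hK, Matrix.mul_assoc, hP]
  have hHK : H * K = P := by
    rw [hK, ← Matrix.mul_assoc, ← pow_succ', hHk, hP]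
  have hKH : K * H = P := by
    rw [hK, Matrix.mul_assoc, hPH, ← pow_succ, hHk]
  have e1 : (D * H * D) * (D * K * D) = D := by
    calc (D * H * D) * (D * K * D) = D * (H * (D * D) * K) * D := by
          simp only [Matrix.mul_assoc]
      _ = D * (H * D * K) * D := by rw [hDD]
      _ = D * (H * K) * D := by rw [Perm.mid P D H K h3 hHP hPK]
      _ = D := by rw [hHK, hDPD]
  have e2 : (D * K * D) * (D * H * D) = D := by
    calc (D * K * D) * (D * H * D) = D * (K * (D * D) * H) * D := by
          simp only [Matrix.mul_assoc]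
      _ = D * (K * D * H) * D := by rw [hDD]
      _ = D * (K * H) * D := by rw [Perm.mid P D K H h3 hKP hPH]
      _ = D := by rw [hKH, hDPD]
  set G : Matrix E E ℕ := D * H * D with hG
  set G2 : Matrix E E ℕ := D * K * D with hG2
  have hDone : ∀ i, P i i ≠ 0 → D i i = 1 := by
    intro i hi
    rw [hDdef, Matrix.diagonal_apply_eq]
    simp only [hd]
    rw [if_neg hi]
  have hrow2 : ∀ j, P j j ≠ 0 → 1 ≤ ∑ l, G2 j l := by
    intro j hj
    by_contra hlt
    have h0 : ∑ l, G2 j l = 0 := by omega
    have h5 : ∀ l, G2 j l = 0 := by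
      intro l
      exact (Finset.sum_eq_zero_iff.mp h0) l (Finset.mem_univ l)
    have h6 : (G2 * G) j j = 1 := by rw [e2, hDone j hj]
    rw [Matrix.mul_apply] at h6
    simp [h5] at h6
  have hGz : ∀ i j, P j j = 0 → G i j = 0 := by
    intro i j hj
    rw [hG, hent]
    simp only [hd]
    rw [if_pos hj, Nat.mul_zero]
  have hsumD : ∀ i, P i i ≠ 0 → ∑ l, (G * G2) i l = 1 := by
    intro i hi
    rw [e1]
    rw [Finset.sum_eq_single i]
    · exact hDone i hi
    · intro l _ hl
      rw [hDdef, Matrix.diagonal_apply_ne _ (Ne.symm hl)]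
    · intro h
      exact absurd (Finset.mem_univ i) h
  have hexp : ∀ i, ∑ l, (G * G2) i l = ∑ j, G i j * ∑ l, G2 j l := by
    intro i
    simp only [Matrix.mul_apply]
    rw [Finset.sum_comm]
    refine Finset.sum_congr rfl fun j _ => ?_
    rw [Finset.mul_sum]
  have hrow : ∀ i, P i i ≠ 0 → ∑ j, G i j = 1 := by
    intro i hi
    apply le_antisymm
    · calc ∑ j, G i j ≤ ∑ j, G i j * ∑ l, G2 j l := by
            refine Finset.sum_le_sum fun j _ => ?_
            by_cases hj : P j j = 0
            · rw [hGz i j hj]
              simp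
            · exact Nat.le_mul_of_pos_right _ (hrow2 j hj)
        _ = 1 := by rw [← hexp i, hsumD i hi]
    · by_contra hlt
      have h0 : ∑ j, G i j = 0 := by omega
      have h5 : ∀ j, G i j = 0 := by
        intro j
        exact (Finset.sum_eq_zero_iff.mp h0) j (Finset.mem_univ j)
      have h6 := hsumD i hi
      rw [hexp i] at h6
      simp [h5] at h6
  have hHG : ∀ i, P i i ≠ 0 →
      ∑ j ∈ Finset.univ.filter (fun j => P j j ≠ 0), H i j = ∑ j, G i j := by
    intro i hi
    rw [Finset.sum_filter]
    refine Finset.sum_congr rfl fun j _ => ?_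
    rw [hG, hent]
    simp only [hd]
    by_cases hj : P j j = 0
    · simp [hj]
    · simp [hi, hj]
  calc ∑ i ∈ Finset.univ.filter (fun i => P i i ≠ 0),
        ∑ j ∈ Finset.univ.filter (fun j => P j j ≠ 0), H i j =
        ∑ i ∈ Finset.univ.filter (fun i => P i i ≠ 0), P i i := by
        refine Finset.sum_congr rfl fun i hi => ?_
        have hi' : P i i ≠ 0 := (Finset.mem_filter.mp hi).2
        rw [hHG i hi', hrow i hi']
        have := h1 i
        omega
    _ = ∑ i, P i i := by
        rw [Finset.sum_filter_ne_zero]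
    _ = P.trace := rfl

end Pool.Agent.NH88.FA
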