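import Pool.Agent.NH88.FA.Stm2

set_option autoImplicit false

/-!
Project FA, part POL: assembly for matrices with diagonal entries at most `1` (helper54).
-/

namespace Pool.Agent.NH88.FA

theorem t_POL (hM : S_MAT) (hU : S_CMU) (hE : S_CLE) (hN : S_NIL) : S_POL := by
  classical
  intro E α _ _ φ Full hmul hnil hdiag hFmul hFex hFne
  obtain ⟨e, he⟩ := hN E α φ Full hmul hnil hFmul hFex hFne
  obtain ⟨v, u, r, hr, h⟩ := hM E α (phC φ e) Full 1 (hU E α φ hmul hnil e)
    (hE E α φ hmul hnil hdiag e) hFmul hFex he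
  refine ⟨fun i => if SameC φ e i then v i else 0, fun j => if SameC φ e j then u j else 0, r, hr,
    fun z hz => ?_⟩
  rw [← h z hz]
  refine Finset.sum_congr rfl (fun i _ => Finset.sum_congr rfl (fun j _ => ?_))
  have h0 : phC φ e z i j = if SameC φ e i ∧ SameC φ e j then φ z i j else 0 := by
    simp only [phC, Matrix.of_apply]
  rw [h0]
  by_cases h1 : SameC φ e i <;> by_cases h2 : SameC φ e j <;> simp [h1, h2]

end Pool.Agent.NH88.FA
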