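import Pool.Agent.NH88.FA.Stm

/-! # Project FA (helper88), FA-POW: an idempotent power of a matrix with bounded powers (helper30) -/

set_option autoImplicit false

namespace Pool.Agent.NH88.FA

namespace Pow

theorem shift {R : Type} [Monoid R] (M : R) (m d : ℕ) (h : M ^ m = M ^ (m + d)) (j t : ℕ) :
    M ^ (m + j) = M ^ (m + j + d * t) := by
  induction t with
  | zero => rw [mul_zero, add_zero]
  | succ t ih =>
    rw [ih, show m + j + d * t = m + (j + d * t) by ring,
      show m + j + d * (t + 1) = (m + d) + (j + d * t) by ring, pow_add M m, pow_add M (m + d), ← h]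

theorem idem {R : Type} [Monoid R] (M : R) (m d : ℕ) (hm : 1 ≤ m) (hd : 1 ≤ d)
    (h : M ^ m = M ^ (m + d)) : ∃ k, 1 ≤ k ∧ M ^ k * M ^ k = M ^ k := by
  have hk : m ≤ d * m := Nat.le_mul_of_pos_left m hd
  refine ⟨d * m, hm.trans hk, ?_⟩
  obtain ⟨j, hj⟩ := Nat.exists_eq_add_of_le hk
  have h1 := shift M m d h j m
  rw [← hj] at h1
  rw [← pow_add, ← h1]

end Pow

theorem t_POW : S_POW := by
  intro E _ _ M a ha
  let f : ℕ → E → E → Fin (a + 1) := fun k i j =>
    ⟨(M ^ (k + 1)) i j, Nat.lt_succ_of_le (ha (k + 1) (Nat.le_add_left 1 k) i j)⟩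
  obtain ⟨x, y, hxy, hf⟩ := Finite.exists_ne_map_eq_of_infinite f
  have key : ∀ x y : ℕ, x < y → f x = f y → ∃ k, 1 ≤ k ∧ M ^ k * M ^ k = M ^ k := by
    intro x y hlt h
    refine Pow.idem M (x + 1) (y - x) (Nat.le_add_left 1 x) (by omega) ?_
    rw [show x + 1 + (y - x) = y + 1 by omega]
    ext i j
    exact congrArg Fin.val (congrFun (congrFun h i) j)
  rcases lt_or_gt_of_ne hxy with h | h
  · exact key x y h hf
  · exact key y x h hf.symm

end Pool.Agent.NH88.FA
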