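import Pool.Agent.NH88.FA.Stm

set_option autoImplicit false

/-!
FA-TR: two idempotent matrices over `ℕ` with the same trace.
-/

namespace Pool.Agent.NH88.FA

theorem t_TR (hI : S_IDEM) : S_TR := by
  intro E _ _ P Q hP hQ hPQ hQP htr
  obtain ⟨p1, -, p3⟩ := hI E P hP
  obtain ⟨q1, q2, -⟩ := hI E Q hQ
  set e : E → ℕ := fun i => if P i i = 0 then 0 else 1 with he
  set D : Matrix E E ℕ := Matrix.diagonal e with hD
  have hPe : ∀ i, P i i = e i := by
    intro i
    have := p1 i
    simp only [he]
    split_ifs with h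
    · exact h
    · omega
  have he1 : ∀ i, e i ≤ 1 := fun i => (hPe i) ▸ p1 i
  have hPQP : P * Q * P = Q := by rw [hPQ, hQP]
  have htP : P.trace = ∑ i, e i := Finset.sum_congr rfl fun i _ => hPe i
  have htQ : Q.trace = ∑ i, e i * Q i i := by
    have h1 : Q.trace = (D * Q).trace := by
      calc Q.trace = (P * Q).trace := by rw [hPQ]
        _ = (P * D * P * Q).trace := by rw [p3]
        _ = (P * (D * P * Q)).trace := by simp only [Matrix.mul_assoc]
        _ = (D * P * Q * P).trace := Matrix.trace_mul_comm _ _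
        _ = (D * (P * Q * P)).trace := by simp only [Matrix.mul_assoc]
        _ = (D * Q).trace := by rw [hPQP]
    rw [h1]
    refine Finset.sum_congr rfl fun i _ => ?_
    rw [Matrix.diag_apply, hD, Matrix.diagonal_mul]
  have hle : ∀ i ∈ Finset.univ, e i * Q i i ≤ e i := fun i _ => by
    calc e i * Q i i ≤ e i * 1 := Nat.mul_le_mul_left _ (q1 i)
      _ = e i := mul_one _
  have heq : ∑ i, e i * Q i i = ∑ i, e i :=
    le_antisymm (Finset.sum_le_sum hle) (by rw [← htP, ← htQ]; exact htr)
  have hall := (Finset.sum_eq_sum_iff_of_le hle).1 heq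
  have hQ1 : ∀ i, e i ≠ 0 → Q i i ≠ 0 := by
    intro i hi h0
    have := hall i (Finset.mem_univ i)
    rw [h0, mul_zero] at this
    exact hi this.symm
  have hDQD : D * Q * D = D := by
    ext i j
    rw [hD, Matrix.mul_diagonal, Matrix.diagonal_mul]
    by_cases hij : i = j
    · subst hij
      rw [hall i (Finset.mem_univ i), Matrix.diagonal_apply_eq]
      have := he1 i
      rcases Nat.le_one_iff_eq_zero_or_eq_one.1 this with h | h
      · simp [h]
      · simp [h]
    · rw [Matrix.diagonal_apply_ne _ hij]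
      by_cases hi : e i = 0
      · rw [hi, zero_mul, zero_mul]
      · by_cases hj : e j = 0
        · rw [hj, mul_zero]
        · rw [q2 i j hij (hQ1 i hi) (hQ1 j hj), mul_zero, zero_mul]
  calc Q = P * Q * P := hPQP.symm
    _ = (P * D * P) * Q * (P * D * P) := by rw [p3]
    _ = P * (D * (P * Q * P) * D) * P := by simp only [Matrix.mul_assoc]
    _ = P * (D * Q * D) * P := by rw [hPQP]
    _ = P * D * P := by rw [hDQD]
    _ = P := p3

end Pool.Agent.NH88.FA
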