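import Mathlib
import Pool.Agent.NH88.FA.Fin2
import Pool.Agent.NH88.FA.IDEM
import Pool.Agent.NH88.FA.POW
import Pool.Agent.NH88.FA.TR
import Pool.Agent.NH88.FA.PERM
import Pool.Agent.NH88.FA.MAT
import Pool.Agent.NH88.FA.POL
import Pool.Agent.NH88.FA.CMU
import Pool.Agent.NH19.LA.Zip
import Pool.Agent.NH19.LA.Mach

set_option autoImplicit false

/-!
Assembly.
-/

namespace Pool.Agent.NH88.FA

open Relation Pool.Agent.H630R2.LA Pool.Agent.R620.KV Pool.Agent.NH19.LA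

theorem size_lower {A : Type} {M : LimAut A} {n l : ℕ} (hl : l ≤ Nat.card M.Q)
    (h : 2 ^ (2 ^ n) ≤ Nat.card M.Q * 2 ^ (l * Nat.card M.Q) + 1) : 2 ^ n ≤ M.size ^ 2 := by
  have h3 : Nat.card M.Q + 3 ≤ M.size := by
    unfold LimAut.size
    omega
  have h4 : (Nat.card M.Q + 3) ^ 2 ≤ M.size ^ 2 := Nat.pow_le_pow_left h3 2
  generalize Nat.card M.Q = s at *
  have h5 : s * 2 ^ (l * s) + 1 ≤ 2 ^ (s * s + s) := by
    have h6 : 2 ^ (l * s) ≤ 2 ^ (s * s) :=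
      Nat.pow_le_pow_right (by norm_num) (Nat.mul_le_mul_right _ hl)
    have h7 : s + 1 ≤ 2 ^ s := Nat.lt_two_pow_self
    have h8 : 1 ≤ 2 ^ (s * s) := Nat.one_le_two_pow
    calc s * 2 ^ (l * s) + 1 ≤ s * 2 ^ (s * s) + 2 ^ (s * s) := by
          have := Nat.mul_le_mul_left s h6
          omega
      _ = 2 ^ (s * s) * (s + 1) := by ring
      _ ≤ 2 ^ (s * s) * 2 ^ s := Nat.mul_le_mul_left _ h7
      _ = 2 ^ (s * s + s) := (pow_add _ _ _).symm
  have h6 := (Nat.pow_le_pow_iff_right (by norm_num)).1 (h.trans h5)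
  nlinarith

theorem main (hN : S_NIL) (strict : Prop) (n : ℕ) (hn : 1 ≤ n) :
    ∃ (A : Type) (_ : Finite A) (M : LimAut A), Nat.card A = 4 * n + 2 ∧
      Nat.card M.Q = 3 * n + 4 ∧ M.size ≤ 300 * (n + 1) ^ 2 ∧
      (∀ M' : LimAut A, M'.language strict = M.language strict →
        ((∃ C k : ℕ, ∀ w, AccLE strict M' w (C * (w.length + 1) ^ k)) → Subexp strict M') ∧
        (Subexp strict M' →
          2 ^ (2 ^ n) ≤ Nat.card M'.Q * 2 ^ ((Lft M').ncard * Nat.card M'.Q) + 1 ∧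
          2 ^ n ≤ M'.size ^ 2) ∧
        (M'.Deterministic → 2 ^ (2 ^ n) ≤ (Nat.card M'.Q + 1) ^ ((Lft M').ncard + 1))) ∧
      ∃ M' : LimAut A, M'.Deterministic ∧ (∀ w, AccLE strict M' w 1) ∧
        M'.language strict = M.language strict ∧ M'.size ≤ 2 ^ ((M.size + 2) ^ 4) := by
  obtain ⟨h1, _, h3, h4⟩ := size_Mn n
  have hI := t_IDEM
  have hM : S_MAT := t_MAT hI t_POW (t_TR hI) (t_PERM hI)
  have hP : S_POL := t_POL hM t_CMU t_CLE hN
  refine ⟨Ltr n, inferInstance, Mn n, h3, h1, h4, ?_, ?_⟩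
  · intro M' hL
    refine ⟨?_, ?_, fun hd => det_lower zip_iff mach hn hd hL⟩
    · rintro ⟨C, k, h⟩
      exact subexp_of_poly strict M' C k h
    · intro ha
      have h5 := sub_lower hP zip_iff mach hn ha hL
      refine ⟨h5, size_lower ?_ h5⟩
      have := M'.finQ
      have h6 := Set.ncard_le_ncard (Set.subset_univ (Lft M')) (Set.toFinite _)
      rwa [Set.ncard_univ] at h6
  · obtain ⟨M', h5, h6, h7⟩ := upper (Mn n) strict
    exact ⟨M', h5, accLE_of_det strict M' h5, h6, h7⟩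

end Pool.Agent.NH88.FA
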