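import Pool.Agent.NH88.FA.Stm2

set_option autoImplicit false

/-!
Project FA, part NIL: some component survives all full words.
-/

namespace Pool.Agent.NH88.FA

namespace Nil

variable {E α : Type} [Fintype E] [DecidableEq E]

theorem trans (φ : List α → Matrix E E ℕ) (hm : ∀ x y, φ (x ++ y) = φ x * φ y) {i j k : E}
    (h1 : Rch φ i j) (h2 : Rch φ j k) : Rch φ i k := by
  obtain ⟨x, hx⟩ := h1
  obtain ⟨y, hy⟩ := h2
  refine ⟨x ++ y, ?_⟩
  rw [hm, Matrix.mul_apply]
  intro h0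
  have h3 := (Finset.sum_eq_zero_iff.mp h0) j (Finset.mem_univ j)
  rcases Nat.mul_eq_zero.mp h3 with h | h
  · exact hx h
  · exact hy h

theorem rfl' (φ : List α → Matrix E E ℕ) (h1 : φ [] = 1) (i : E) : Rch φ i i := by
  refine ⟨[], ?_⟩
  rw [h1, Matrix.one_apply_eq]
  exact one_ne_zero

end Nil

/-- FA-NIL -/
theorem t_NIL (h : S_CMU) : S_NIL := by
  classical
  intro E α _ _ φ Full hm h1 hF hex hne
  by_contra hcon
  push Not at hcon
  choose X hX hX0 using hcon
  have hW : ∀ s : Finset E, ∃ w, Full w ∧ ∀ e ∈ s, phC φ e w = 0 := by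
    intro s
    induction s using Finset.induction_on with
    | empty =>
      obtain ⟨x, hx⟩ := hex
      exact ⟨x, hx, fun e he => absurd he (Finset.notMem_empty e)⟩
    | insert a s ha ih =>
      obtain ⟨w, hw, hw0⟩ := ih
      refine ⟨w ++ X a, hF _ _ hw (hX a), fun e he => ?_⟩
      rw [h E α φ hm h1]
      rcases Finset.mem_insert.mp he with rfl | he
      · rw [hX0, Matrix.mul_zero]
      · rw [hw0 e he, Matrix.zero_mul]
  obtain ⟨W, hWF, hW0⟩ := hW Finset.univ
  have hno : ∀ i j, φ W i j ≠ 0 → ¬ Rch φ j i := by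
    intro i j hij hji
    have hs1 : SameC φ i i := ⟨Nil.rfl' φ h1 i, Nil.rfl' φ h1 i⟩
    have hs2 : SameC φ i j := ⟨⟨W, hij⟩, hji⟩
    have h2 : phC φ i W i j = φ W i j := by
      show (if SameC φ i i ∧ SameC φ i j then φ W i j else 0) = φ W i j
      rw [if_pos ⟨hs1, hs2⟩]
    rw [hW0 i (Finset.mem_univ i)] at h2
    exact hij h2.symm
  let ρ : E → ℕ := fun i => (Finset.univ.filter (fun k => Rch φ i k)).card
  have hρ : ∀ i j, φ W i j ≠ 0 → ρ j < ρ i := by
    intro i j hij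
    apply Finset.card_lt_card
    rw [Finset.ssubset_iff_of_subset]
    · refine ⟨i, ?_, ?_⟩
      · exact Finset.mem_filter.mpr ⟨Finset.mem_univ i, Nil.rfl' φ h1 i⟩
      · intro hi
        exact hno i j hij (Finset.mem_filter.mp hi).2
    · intro k hk
      have hk' := (Finset.mem_filter.mp hk).2
      exact Finset.mem_filter.mpr ⟨Finset.mem_univ k, Nil.trans φ hm ⟨W, hij⟩ hk'⟩
  have hpow : ∀ n : ℕ, ∃ w, Full w ∧ ∀ i j, φ w i j ≠ 0 → ρ j + (n + 1) ≤ ρ i := by
    intro n
    induction n with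
    | zero =>
      exact ⟨W, hWF, fun i j hij => hρ i j hij⟩
    | succ n ih =>
      obtain ⟨w, hw, hw1⟩ := ih
      refine ⟨w ++ W, hF _ _ hw hWF, fun i j hij => ?_⟩
      rw [hm, Matrix.mul_apply] at hij
      obtain ⟨l, -, hl⟩ := Finset.exists_ne_zero_of_sum_ne_zero hij
      have h3 : φ w i l ≠ 0 := fun h0 => hl (by rw [h0, Nat.zero_mul])
      have h4 : φ W l j ≠ 0 := fun h0 => hl (by rw [h0, Nat.mul_zero])
      have h5 := hw1 i l h3
      have h6 := hρ l j h4
      omega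
  obtain ⟨w, hw, hw1⟩ := hpow (Fintype.card E)
  apply hne w hw
  ext i j
  rw [Matrix.zero_apply]
  by_contra h0
  have h2 := hw1 i j h0
  have h3 : ρ i ≤ Fintype.card E := Finset.card_le_univ _
  omega

end Pool.Agent.NH88.FA
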